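import Pool.Agent.MP_1246c0_nt.H55.Tower

/-! Forms attached to a real quadratic field. -/

namespace Pool.Agent.MP_1246c0_nt.H55

open NumberField Pool.Agent.MP_db5b97_nt.H85

theorem Fund.not9 {D : ℕ} (h : Fund D) : ¬ (9 : ℤ) ∣ D := by
  rintro ⟨t, ht⟩
  have h4 : D % 4 = 1 ∨ D % 4 = 0 := by
    rcases h.2 with h | ⟨m, rfl, -⟩
    · exact Or.inl h.1
    · exact Or.inr (by omega)
  rcases h4 with h4 | h4
  · exact h.min Nat.prime_three 1 ((1 - t) / 4) (by push_cast; omega)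
  · exact h.min Nat.prime_three 0 (-t / 4) (by push_cast; omega)

theorem ord_three {k : Type} [Field k] [NumberField k] (w : Sp k)
    (hw : ((3 : ℕ) : 𝓞 k) ∉ w.asIdeal) : ord w (Un.mk (3 : k) three_ne_zero) = 0 := by
  have := (val_eq_one_iff w _).2 hw
  exact (ord_eq_zero_iff _ _).2 this

theorem forms (hA : RowATT) {k : Type} [Field k] [NumberField k] {D : ℕ} {s : k} {τ : k ≃ₐ[ℚ] k}
    (hq : Quad D s τ) (q : ℕ) (hq0 : (q : k) ≠ 0) (T : Finset (Un k))
    (h1 : ∀ x ∈ T, ¬ ∃ z : Un k, x = 3 • z)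
    (h2 : ∀ x ∈ T, ∀ y ∈ T, (∃ z : Un k, x - y = 3 • z) → x = y)
    (h3 : ∀ x ∈ T, ∃ f, Att s τ q (q * x.val) f) :
    ∃ S : Finset (Fm ℤ), S.card = T.card ∧
      (∀ f ∈ S, Aniso f ∧ dsc f = q ^ 2 * D ∧ ∃ x ∈ T, Att s τ q (q * x.val) f) ∧
      ∀ f ∈ S, ∀ g ∈ S, Eqv f g → f = g := by
  classical
  choose! φ hφ using h3
  have inj : ∀ x ∈ T, ∀ y ∈ T, ∀ f, Att s τ q (q * x.val) f → Att s τ q (q * y.val) f → x = y := by
    intro x hx y hy f a b
    obtain ⟨z, hz⟩ := hA.inj k D s τ q _ _ f hq a b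
    have hz0 : z ≠ 0 := fun h => a.1 (by rw [hz, h]; simp)
    refine h2 x hx y hy ⟨Un.mk z hz0, Un.ext ?_⟩
    rw [Un.val_sub, Un.val_nsmul, Un.val_mk, div_eq_iff y.val_ne]
    exact mul_left_cancel₀ hq0 (by linear_combination hz)
  refine ⟨T.image φ, Finset.card_image_of_injOn fun x hx y hy e =>
    inj x hx y hy _ (hφ x hx) (e ▸ hφ y hy), fun f hf => ?_, fun f hf g hg e => ?_⟩
  · obtain ⟨x, hx, rfl⟩ := Finset.mem_image.1 hf
    refine ⟨hA.aniso k D s τ q _ _ hq (hφ x hx) ?_, hA.dsc k D s τ q _ _ hq (hφ x hx), x, hx,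
      hφ x hx⟩
    rintro ⟨y, hy⟩
    have hy1 := mul_left_cancel₀ hq0 hy
    have hy0 : y ≠ 0 := fun h => x.val_ne (by rw [hy1, h]; simp)
    exact h1 x hx ⟨Un.mk y hy0, Un.ext (by simpa using hy1)⟩
  · obtain ⟨x, hx, rfl⟩ := Finset.mem_image.1 hf
    obtain ⟨y, hy, rfl⟩ := Finset.mem_image.1 hg
    obtain ⟨a, b, c, d, a', b', c', d', e1, e2, e⟩ := e
    rw [inj x hx y hy _ (hA.act k s τ q _ _ (hφ x hx) a b c d e1)
      (e ▸ hA.act k s τ q _ _ (hφ y hy) a' b' c' d' e2)]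

theorem rowALG (hQ : RowQB) (hA : RowATT) (hL : RowLOC) (hS : RowSEL) : RowALG := by
  classical
  intro D hD
  obtain ⟨_, s, τ, hq⟩ := hQ.model D hD
  obtain ⟨T, h0, h3, h9, hW, hinj, hι⟩ := hS _ D s τ hq
  obtain ⟨hτ, -, -, -, -, -, hreal⟩ := hQ.invol _ D s τ hq
  set T0 := (T.erase 0).filter fun x => ∀ w : Pl (kD D) 3, 3 ∣ ord w.1 x with hT0
  set T1 := (T.erase 0).filter fun x => ¬ ∀ w : Pl (kD D) 3, 3 ∣ ord w.1 x with hT1
  have hc : T0.card + T1.card = T.card - 1 := by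
    rw [Finset.card_filter_add_card_filter_not, Finset.card_erase_of_mem h0]
  have n1 : ∀ x ∈ T.erase 0, ¬ ∃ z : Un (kD D), x = 3 • z := fun x hx h =>
    (Finset.mem_erase.1 hx).1 (hinj x (Finset.mem_of_mem_erase hx) 0 h0 (by simpa using h))
  have hpr : ∀ x ∈ T, ∀ w : Pr (kD D) 3, 3 ∣ ord w.1 x := fun x hx w => by
    obtain ⟨E, hE⟩ := (hW x hx).2
    exact ⟨E w, by simpa using DFunLike.congr_fun hE w⟩
  have hsum : ∀ x ∈ T, ∀ w : Pl (kD D) 3, 3 ∣ ord w.1 x + ord (τ • w).1 x := fun x hx w => by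
    obtain ⟨y, hy⟩ := (hW x hx).1
    have e := congrArg (ord (τ • w).1) hy
    rw [map_add, map_nsmul] at e
    have e2 : ord (τ • w).1 (τ • x) = ord w.1 x := NT2.ord_smul _ _ τ w.1 x
    exact ⟨ord (τ • w).1 y, by simpa [e2, add_comm] using e⟩
  have hsp : ∀ x ∈ T1, D % 3 = 1 := fun x hx => by
    by_contra h
    obtain ⟨h1, h2⟩ := Finset.mem_filter.1 hx
    refine h2 fun w => ?_
    have := hsum x (Finset.mem_of_mem_erase h1) w
    rw [(hQ.nonsplit _ D s τ hq h).2] at this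
    omega
  obtain ⟨S0, c0, p0, i0⟩ := forms hA hq 1 (by simp) T0
    (fun x hx => n1 x (Finset.mem_filter.1 hx).1)
    (fun x hx y hy => hinj x (Finset.mem_of_mem_erase (Finset.mem_filter.1 hx).1) y
      (Finset.mem_of_mem_erase (Finset.mem_filter.1 hy).1)) fun x hx => by
      obtain ⟨h1, h2⟩ := Finset.mem_filter.1 hx
      have := hA.ex _ D s τ x ⊤ hq top_ne_bot fun w => by
        rw [← Ideal.one_eq_top, multiplicity_of_one_right w.prime.not_isUnit, Nat.cast_zero,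
          add_zero]
        by_cases hw : ((3 : ℕ) : 𝓞 (kD D)) ∈ w.asIdeal
        · exact h2 ⟨w, hw⟩
        · exact hpr x (Finset.mem_of_mem_erase h1) ⟨w, hw⟩
      simpa using this
  obtain ⟨S1, c1, p1, i1⟩ := forms hA hq 3 (by simp) T1
    (fun x hx => n1 x (Finset.mem_filter.1 hx).1)
    (fun x hx y hy => hinj x (Finset.mem_of_mem_erase (Finset.mem_filter.1 hx).1) y
      (Finset.mem_of_mem_erase (Finset.mem_filter.1 hy).1)) fun x hx => by
      obtain ⟨-, -, v, hv, hall⟩ := hQ.split _ D s τ hq (hsp x hx)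
      obtain ⟨h1, h2⟩ := Finset.mem_filter.1 hx
      have hxT := Finset.mem_of_mem_erase h1
      have h4 := hsum x hxT v
      have h5 : ∃ u : Pl (kD D) 3, 3 ∣ ord u.1 x + 2 ∧
          ∀ w : Pl (kD D) 3, w ≠ u → 3 ∣ ord w.1 x + 1 := by
        have h6 : ¬ (3 ∣ ord v.1 x ∧ 3 ∣ ord (τ • v).1 x) := fun h => h2 fun w => by
          rcases (hall w).1 with rfl | rfl
          exacts [h.1, h.2]
        by_cases h7 : 3 ∣ ord v.1 x + 2
        · refine ⟨v, h7, fun w hw => ?_⟩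
          obtain rfl := (hall w).1.resolve_left hw
          omega
        · refine ⟨τ • v, by omega, fun w hw => ?_⟩
          obtain rfl := (hall w).1.resolve_right hw
          omega
      obtain ⟨u, hu, hu'⟩ := h5
      have := hA.ex _ D s τ (Un.mk 3 three_ne_zero + x) u.1.asIdeal hq u.1.ne_bot fun w => by
        rw [map_add, mult_prime]
        by_cases hw : ((3 : ℕ) : 𝓞 (kD D)) ∈ w.asIdeal
        · have h8 : ord w _ = 1 := (hall ⟨w, hw⟩).2.2
          rw [h8]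
          split_ifs with h
          · subst h
            omega
          · have : 3 ∣ ord w x + 1 := hu' ⟨w, hw⟩ fun e => h (congrArg Subtype.val e)
            omega
        · rw [ord_three w hw, if_neg fun h : w = u.1 => hw (h ▸ u.2)]
          simpa using hpr x hxT ⟨w, hw⟩
      rw [(hall u).2.1] at this
      simpa using this
  refine ⟨S0, S1, by omega, fun hG => ?_, fun f hf => ?_, fun f hf => ?_, i0, i1⟩
  · have := h9 fun h => hG (rowTOWER _ hq.rank h)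
    omega
  · obtain ⟨a1, a2, x, hx, a3⟩ := p0 f hf
    rw [Nat.cast_one, one_pow, one_mul] at a2
    refine ⟨a1, a2, fun a b c d e => ?_⟩
    have a4 : dsc (act f a b c d) = D := by rw [dsc_act, e, a2]; simp
    refine ⟨by rw [a4]; simp, a4 ▸ hD.not9, fun h => ?_⟩
    obtain ⟨ι, hι⟩ := hι h
    refine (hL _ D s τ _ _ ι hq h ?_).1 (hA.act _ s τ 1 _ f a3 a b c d e)
    simpa using hι x (Finset.mem_of_mem_erase (Finset.mem_filter.1 hx).1)
  · obtain ⟨a1, a2, x, hx, a3⟩ := p1 f hf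
    refine ⟨hsp x hx, a1, by rw [a2]; norm_num, fun a b c d e => ?_⟩
    obtain ⟨ι, hι⟩ := hι (hsp x hx)
    refine (hL _ D s τ _ _ ι hq (hsp x hx) ?_).2 (hA.act _ s τ 3 _ f a3 a b c d e)
    rw [map_mul, Nat.cast_ofNat, map_ofNat]
    exact H16.rowPAD.mul _ _ _ (H16.rowPAD.three 1).1
      (hι x (Finset.mem_of_mem_erase (Finset.mem_filter.1 hx).1))

end Pool.Agent.MP_1246c0_nt.H55
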