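import Pool.Agent.MP_1246c0_nt.H55.Lev
import Pool.Agent.MP_1246c0_nt.H6.LAYER
import Pool.Agent.MP_1246c0_nt.H16.Pad
import Pool.Agent.MP_1246c0_nt.H19.CLS

/-! Norms and class groups in the layers. -/

namespace Pool.Agent.MP_1246c0_nt.H55

open NumberField IsDedekindDomain Pool.Agent.MP_db5b97_nt Pool.Agent.MP_db5b97_nt.H85 Polynomial

theorem lam_pow {j : ℕ} {x : ℚ_[3]} (h : Lam j x) (n : ℕ) : Lam j (x ^ n) := by
  induction n with
  | zero => simpa using H16.rowPAD.one j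
  | succ n ih => rw [pow_succ]; exact H16.rowPAD.mul _ _ _ ih h

section Col

variable {k F : Type} [Field k] [NumberField k] [Field F] [NumberField F] [Algebra k F]

theorem Lev.lam {j : ℕ} {θ : 𝓞 F} (h : Lev k F j θ) (ι : k →+* ℚ_[3]) (x : Un F) :
    Lam j (ι (Un.nrm k F x).val) := by
  set R : Subring k := (PadicInt.subring 3).comap ι with hR
  let φ : R →+* ℤ_[3] := (ι.comp R.subtype).codRestrict (PadicInt.subring 3) fun a => a.2
  have hφ : ∀ a : R, ((φ a : ℤ_[3]) : ℚ_[3]) = ι a := fun _ => rfl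
  have hd : ∀ a : R, 3 ∣ φ a → 3 ∣ a := by
    rintro a ⟨z, hz⟩
    have e := congrArg (fun t : ℤ_[3] => (t : ℚ_[3])) hz
    simp only [hφ, PadicInt.coe_mul] at e
    have e3 : ((3 : ℤ_[3]) : ℚ_[3]) = 3 := rfl
    refine ⟨⟨a / 3, ?_⟩, Subtype.ext ?_⟩
    · show ‖ι (a / 3)‖ ≤ 1
      rw [map_div₀, map_ofNat, e, e3, mul_div_cancel_left₀ _ three_ne_zero]
      exact z.2
    · show (a : k) = 3 * (a / 3)
      field_simp
  have h3 : ∀ a : R, 3 ∣ a ^ 3 - a := fun a => hd _ (by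
    have : φ (a ^ 3 - a) ∈ RingHom.ker (PadicInt.toZMod (p := 3)) := by
      rw [RingHom.mem_ker, map_sub, map_pow, map_sub, map_pow, ZMod.pow_card, sub_self]
    rw [PadicInt.ker_toZMod, PadicInt.maximalIdeal_eq_span_p, Ideal.mem_span_singleton] at this
    exact_mod_cast this)
  obtain ⟨ρ, hρ⟩ := h.pi
  have hρ' : ((θ : F) - 2) * aeval (θ : F) (ρ.map (Int.castRingHom R)) = 3 := by
    have := congrArg (algebraMap (𝓞 F) F) hρ
    rw [map_mul, map_sub, map_ofNat, map_ofNat, ← aeval_algebraMap_apply] at this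
    rw [← algebraMap_int_eq, aeval_map_algebraMap]
    exact this
  have hle : ∀ g : R[X], aeval (θ : F) g ≠ 0 → ‖ι (Algebra.norm k (aeval (θ : F) g))‖ ≤ 1 :=
    fun g hg => by
      obtain ⟨G, hG⟩ := exists_ch j g
      rw [h.col R g G hG hg]
      exact (G.eval (-1)).2
  have unit : ∀ g : R[X], aeval (θ : F) g ≠ 0 → ¬ 3 ∣ g.eval 2 →
      Lam j (ι (Algebra.norm k (aeval (θ : F) g))) := by
    intro g hg hu
    obtain ⟨G, hG, h1, h2⟩ := coleman h3 j g
    rw [h.col R g G hG hg]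
    have h4 : ¬ 3 ∣ φ (G.eval 2) := fun h4 => hu (by simpa using dvd_sub (hd _ h4) h1)
    have h5 : IsUnit (φ (G.eval 2)) := by
      rw [PadicInt.isUnit_iff]
      exact le_antisymm (PadicInt.norm_le_one _) (not_lt.1 fun h =>
        h4 (by exact_mod_cast (PadicInt.norm_lt_one_iff_dvd _).1 h))
    have h6 := map_dvd φ h2
    rw [map_mul, h5.dvd_mul_left, map_pow, map_ofNat] at h6
    have h7 := (PadicInt.norm_le_pow_iff_mem_span_pow _ (j + 1)).2
      (Ideal.mem_span_singleton.2 (by exact_mod_cast h6))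
    refine ⟨0, ?_⟩
    rw [PadicInt.norm_def, hφ, zpow_neg, zpow_natCast, ← inv_pow] at h7
    simpa using h7
  have red : ∀ g : R[X], 3 ∣ g.eval 2 → ∃ g' : R[X],
      aeval (θ : F) g = ((θ : F) - 2) * aeval (θ : F) g' := by
    rintro g ⟨c, hc⟩
    obtain ⟨q, hq⟩ := X_sub_C_dvd_sub_C_eval (p := g) (a := 2)
    refine ⟨q + C c * ρ.map (Int.castRingHom R), ?_⟩
    have := congrArg (aeval (θ : F)) hq
    rw [hc] at this
    simp only [map_sub, map_mul, aeval_X, aeval_C, map_ofNat, map_add] at this ⊢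
    linear_combination this - algebraMap R F c * hρ'
  have main : ∀ (m : ℕ) (g : R[X]), aeval (θ : F) g ≠ 0 →
      (3 : ℝ)⁻¹ ^ m ≤ ‖ι (Algebra.norm k (aeval (θ : F) g))‖ →
      Lam j (ι (Algebra.norm k (aeval (θ : F) g))) := by
    intro m
    induction m with
    | zero =>
      intro g hg hm
      refine unit g hg fun h1 => ?_
      obtain ⟨g', e⟩ := red g h1
      have := hle g' (right_ne_zero_of_mul (e ▸ hg))
      rw [e, map_mul, h.npi, map_mul, map_neg, map_ofNat, norm_mul, norm_neg, H16.PADa.n3] at hm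
      linarith
    | succ m ih =>
      intro g hg hm
      by_cases h1 : 3 ∣ g.eval 2
      · obtain ⟨g', e⟩ := red g h1
        rw [e, map_mul, h.npi, map_mul, map_neg, map_ofNat] at hm ⊢
        rw [norm_mul, norm_neg, H16.PADa.n3, pow_succ'] at hm
        rw [neg_eq_neg_one_mul]
        exact H16.rowPAD.mul _ _ _ (H16.rowPAD.mul _ _ _ (H16.rowPAD.three j).2
          (H16.rowPAD.three j).1) (ih g' (right_ne_zero_of_mul (e ▸ hg)) (by linarith))
      · exact unit g hg h1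
  have scale : ∀ g0 : k[X], ∃ (M : ℕ) (g : R[X]), aeval (θ : F) g = 3 ^ M * aeval (θ : F) g0 := by
    intro g0
    induction g0 using Polynomial.induction_on with
    | C a =>
      obtain ⟨M, hM⟩ := pow_unbounded_of_one_lt ‖ι a‖ (by norm_num : (1 : ℝ) < 3)
      refine ⟨M, C ⟨3 ^ M * a, ?_⟩, ?_⟩
      · show ‖ι (3 ^ M * a)‖ ≤ 1
        rw [map_mul, map_pow, map_ofNat, norm_mul, norm_pow, H16.PADa.n3, inv_pow,
          inv_mul_le_iff₀ (by positivity), mul_one]
        exact hM.le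
      · rw [aeval_C, aeval_C, IsScalarTower.algebraMap_apply R k F]
        show algebraMap k F (3 ^ M * a) = _
        rw [map_mul, map_pow, map_ofNat]
    | add p q hp hq =>
      obtain ⟨M, g, hg⟩ := hp
      obtain ⟨M', g', hg'⟩ := hq
      refine ⟨M + M', 3 ^ M' * g + 3 ^ M * g', ?_⟩
      simp only [map_add, map_mul, map_pow, map_ofNat, hg, hg']
      ring
    | monomial n a hp =>
      obtain ⟨M, g, hg⟩ := hp
      refine ⟨M, g * X, ?_⟩
      rw [pow_succ, ← mul_assoc, map_mul, map_mul _ _ X, hg, aeval_X, aeval_X, mul_assoc]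
  obtain ⟨g0, e0⟩ := h.gen x.val
  obtain ⟨M, g, e⟩ := scale g0
  rw [← e0] at e
  have hg : aeval (θ : F) g ≠ 0 := by rw [e]; simp
  obtain ⟨m, hm⟩ := exists_pow_lt_of_lt_one (norm_pos_iff.2 (by simpa using hg :
    ι (Algebra.norm k (aeval (θ : F) g)) ≠ 0)) (by norm_num : (3 : ℝ)⁻¹ < 1)
  have h1 := main m g hg hm.le
  rw [e, map_mul, map_pow, ← map_ofNat (algebraMap k F) 3, Algebra.norm_algebraMap, map_mul,
    map_pow, map_pow, map_ofNat] at h1
  have h2 := H16.rowPAD.mul _ _ _ (H16.rowPAD.inv _ _ (lam_pow (lam_pow (H16.rowPAD.three j).1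
    (Module.finrank k F)) M)) h1
  rwa [inv_mul_cancel_left₀ (by simp)] at h2

theorem nrm_SU : (SU F).map (Un.nrm k F) ≤ SU k := by
  rintro _ ⟨x, hx, rfl⟩
  rw [H6.mem_SU, H10.rowNT1.dv_nrm, (H6.mem_SU F).1 hx, map_zero]

theorem inc_SU {x : Un k} (hx : x ∈ SU k) : Un.inc k F x ∈ SU F := by
  rw [H6.mem_SU] at hx ⊢
  ext w
  have := DFunLike.congr_fun hx (w.und k)
  rw [dv_apply, NT2.ord_inc]
  exact mul_eq_zero_of_right _ this

/-- the arithmetic of a layer -/
def Ar (k F : Type) [Field k] [NumberField k] [Field F] [NumberField F] [Algebra k F] (j : ℕ) :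
    Prop :=
  NoT F ∧ Nat.card (Pl F 3) = Nat.card (Pl k 3) ∧
    ((SU F).map (Un.nrm k F)).relIndex (SU k) ∣ 3 ^ (j * (Nat.card (Pl k 3) - 1))

theorem Ar.zero (h : Good k) : Ar k k 0 := by
  refine ⟨h.1, rfl, ?_⟩
  rw [AddSubgroup.relIndex_eq_one.2 (show SU k ≤ (SU k).map (Un.nrm k k) from
    fun x hx => ⟨x, hx, Un.ext (by simp)⟩)]
  exact one_dvd _

theorem Ar.step {K : Type} [Field K] [NumberField K] [Algebra k K] [Algebra K F]
    [IsScalarTower k K F] [IsGalois K F] (hk : Good k) {j : ℕ} {θK : 𝓞 K} (h : Lev k K j θK)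
    (a : Ar k K j) (θ : 𝓞 F) (hθ : θ ^ 3 - 3 * θ = algebraMap (𝓞 K) (𝓞 F) θK)
    (hg : ∀ x : F, ∃ P : K[X], x = aeval (θ : F) P) : Ar k F (j + 1) := by
  obtain ⟨l, hG, hU, hc⟩ := h.step θ hθ hg
  have := h.real
  have := l.real
  obtain ⟨h1, h2⟩ := H6.rowLAYER K F (F ≃ₐ[K] F) hG hU hc a.1
  have hnrm : Un.nrm k F = (Un.nrm k K).comp (Un.nrm K F) :=
    AddMonoidHom.ext fun x => Un.ext Algebra.norm_norm.symm
  rw [a.2.1] at h1
  refine ⟨h2 ?_, hc.trans a.2.1, ?_⟩
  · rcases hk.2 with h3 | ⟨h3, ι, η, hη, h4⟩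
    · rw [h3] at h1
      exact inf_le_left.trans (AddSubgroup.relIndex_eq_one.1 h1)
    · rw [h3, ← AddSubgroup.relIndex_mul_relIndex _ (SU K ⊓ (Un.nrm K F).range) _
        (le_inf nrm_SU (AddSubgroup.map_le_range _ _)) inf_le_left] at h1
      refine AddSubgroup.relIndex_eq_one.1 ((Nat.prime_three.eq_one_or_self_of_dvd _
        ⟨_, h1.symm⟩).resolve_right fun h5 => ?_)
      rw [h5] at h1
      obtain ⟨x, hx⟩ := (AddSubgroup.relIndex_eq_one.1 (Nat.eq_of_mul_eq_mul_left three_pos h1)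
        (inc_SU (F := K) hη)).2
      have h6 := l.lam ι x
      rw [hnrm, AddMonoidHom.comp_apply, hx, Un.val_nrm, Un.val_inc, Algebra.norm_algebraMap,
        map_pow, h.rank] at h6
      have := Nat.le_of_dvd (by positivity) (H16.rowPAD.dvd _ (by simp) h4 _ _ h6)
      exact absurd this (not_le.2 (Nat.pow_lt_pow_right (by norm_num) j.lt_succ_self))
  · rw [← AddSubgroup.relIndex_mul_relIndex _ ((SU K).map (Un.nrm k K)) _
      (by rw [hnrm, ← AddSubgroup.map_map]; exact AddSubgroup.map_mono nrm_SU) nrm_SU, add_mul,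
      pow_add, mul_comm (3 ^ _), one_mul]
    refine mul_dvd_mul ?_ a.2.2
    rw [← h1, hnrm, ← AddSubgroup.map_map, ← AddSubgroup.relIndex_comap]
    exact AddSubgroup.relIndex_dvd_of_le_left _ (AddSubgroup.le_comap_map _ _)

end Col

theorem exists_eps (k : Type) [Field k] [NumberField k] [IsTotallyReal k]
    (h : Module.finrank ℚ k = 2) : ∃ ε ∈ SU k, dvl k 3 ε = 0 ∧ ε.val ^ 2 ≠ 1 := by
  have hr : Units.rank k = 1 := by have := H6.rank_tr k; omega
  let i : Fin (Units.rank k) := ⟨0, by omega⟩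
  obtain ⟨h1, h2⟩ : H79.io k (Additive.ofMul (Units.fundSystem k i)) ∈ SU k ⊓ (dvl k 3).ker := by
    rw [H6.ker_dvl]
    exact ⟨_, rfl⟩
  refine ⟨_, h1, h2, fun e => (Units.basisUnitLattice k).ne_zero i (Subtype.ext ?_)⟩
  rw [← Units.logEmbedding_fundSystem]
  refine Units.dirichletUnitTheorem.logEmbedding_eq_zero_iff.2 ?_
  exact isOfFinOrder_iff_pow_eq_one.2 ⟨2, two_pos, Units.coe_injective k (by
    simpa [H79.io_val] using e)⟩

theorem bound (k : Type) [Field k] [NumberField k] [IsTotallyReal k]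
    (h : Module.finrank ℚ k = 2) (hk : Good k) : ∃ B : ℕ, ∀ (F : Type) [Field F] [NumberField F]
      [Algebra k F] (j : ℕ) (θ : 𝓞 F), Lev k F j θ → Ar k F j →
      padicValNat 3 (Nat.card (ClassGroup (𝓞 F))) ≤ B := by
  classical
  obtain ⟨n, hn, hα⟩ := H6.exists_single k
  have fin : ∀ N : ℕ, 0 < N → ∀ (F : Type) [Field F] [NumberField F] [Algebra k F] (j : ℕ)
      (θ : 𝓞 F), Lev k F j θ → Ar k F j → (∀ v : Pl k 3, ∃ y ∈ (SU F).map (Un.nrm k F),
        dvl k 3 y = Finsupp.single v (N : ℤ)) →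
      padicValNat 3 (Nat.card (ClassGroup (𝓞 F))) ≤ N ^ 2 := by
    intro N hN F _ _ _ j θ l a hy
    refine H19.rowCLS F N hN a.1 (by rw [a.2.1]; rcases hk.2 with h | ⟨h, -⟩ <;> omega) fun w => ?_
    obtain ⟨_, ⟨u, hu, rfl⟩, e⟩ := hy (w.und k)
    refine ⟨u, hu, ?_⟩
    ext w'
    rw [dvl_apply, ← l.ordn, ← dvl_apply, e, Finsupp.single_apply, Finsupp.single_apply]
    exact if_congr l.inj.eq_iff rfl rfl
  rcases hk.2 with h3 | ⟨h3, ι, η, hη, h4⟩
  · refine ⟨n ^ 2, fun F _ _ _ j θ l a => fin n (Nat.pos_of_ne_zero hn) F j θ l a fun v => ?_⟩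
    obtain ⟨u, hu, e⟩ := hα v
    have := a.2.2
    rw [h3, Nat.sub_self, mul_zero, pow_zero, Nat.dvd_one, AddSubgroup.relIndex_eq_one] at this
    exact ⟨u, this hu, by simp [e]⟩
  · obtain ⟨ε, hε, e1, e2⟩ := exists_eps k h
    obtain ⟨c, hc⟩ := H16.rowPAD.adj (ι ε.val) (by simp) fun m e => e2 (by
      have e3 : (2 • ε : Un k) = (2 * m) • Un.mk 3 three_ne_zero := Un.ext (ι.injective (by
        rw [div_pow, div_eq_one_iff_eq (pow_ne_zero _ (zpow_ne_zero _ three_ne_zero))] at e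
        rw [Un.val_nsmul, Un.val_zsmul, map_pow, e, Un.val_mk, map_zpow₀, map_ofNat, mul_comm,
          zpow_mul, zpow_ofNat]))
      obtain ⟨v⟩ := (Nat.card_pos_iff.1 (H6.card_pos k)).1
      have e4 := congrArg (ord v.1) e3
      have e5 := ord_pos v.1 (x := Un.mk 3 three_ne_zero) 3 (by simp [map_ofNat])
        (by simpa using v.2)
      rw [map_nsmul, map_zsmul, ← dvl_apply ε, e1, Finsupp.zero_apply, smul_zero, smul_eq_mul]
        at e4
      rw [(mul_eq_zero.1 e4.symm).resolve_right e5.ne', zero_smul] at e3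
      simpa using congrArg Un.val e3)
    refine ⟨(3 ^ c * n) ^ 2, fun F _ _ _ j θ l a => fin _ (by positivity) F j θ l a fun v => ?_⟩
    let Λ : AddSubgroup (Un k) :=
      { carrier := {x | Lam j (ι x.val)}
        zero_mem' := by simpa using H16.rowPAD.one j
        add_mem' := fun hx hy => by simpa using H16.rowPAD.mul _ _ _ hx hy
        neg_mem' := fun hx => by simpa using H16.rowPAD.inv _ _ hx }
    have h5 := a.2.2
    rw [h3, ← AddSubgroup.relIndex_mul_relIndex _ (SU k ⊓ Λ) _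
      (le_inf nrm_SU (by rintro _ ⟨x, -, rfl⟩; exact l.lam ι x)) inf_le_left] at h5
    have h8 : Lam j (ι ((SU k ⊓ Λ).relIndex (SU k) • η).val) :=
      (AddSubgroup.mem_inf.1 ((SU k ⊓ Λ).nsmul_relIndex_mem hη)).2
    rw [Un.val_nsmul, map_pow] at h8
    obtain ⟨t, ht⟩ := H16.rowPAD.dvd _ (by simp) h4 j _ h8
    rw [ht, show j * (2 - 1) = j by omega, mul_left_comm] at h5
    have h6 := Nat.dvd_of_mul_dvd_mul_left (by positivity) (h5.trans (mul_one _).symm.dvd)
    have h7 := AddSubgroup.relIndex_eq_one.1 (Nat.eq_one_of_mul_eq_one_right (Nat.dvd_one.1 h6))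
    obtain ⟨u, hu, e⟩ := hα v
    obtain ⟨m, hm⟩ := hc j (ι u.val) (by simp)
    refine ⟨3 ^ c • u + m • ε, h7 ⟨add_mem (nsmul_mem hu _) (nsmul_mem hε _), ?_⟩, ?_⟩
    · show Lam j _
      simpa using hm
    · rw [map_add, map_nsmul, map_nsmul, e, e1]
      simp

end Pool.Agent.MP_1246c0_nt.H55
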