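import Mathlib

/-! The norm operator attached to `X ^ 3 - 3 X` and its congruences. -/

namespace Pool.Agent.MP_1246c0_nt.H55

open Polynomial

variable {R : Type} [CommRing R]

/-- the part of the norm form divisible by `3` -/
def Qf (a b c y : R) : R := 2 * a ^ 2 * c + 3 * a * c ^ 2 - a * b ^ 2 - a * b * c * y - b * c ^ 2 * y

/-- the norm of `a + b t + c t ^ 2` where `t ^ 3 - 3 t = y` -/
def Nf (a b c y : R) : R := a ^ 3 + b ^ 3 * y + c ^ 3 * y ^ 2 + 3 * Qf a b c y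

theorem map_Nf {S : Type} [CommRing S] (φ : R →+* S) (a b c y : R) :
    φ (Nf a b c y) = Nf (φ a) (φ b) (φ c) (φ y) := by
  simp [Nf, Qf, map_ofNat]

theorem Nf_prod (a b c t u : R) (h : t ^ 2 + t * u + u ^ 2 = 3) :
    (a + b * t + c * t ^ 2) * (a + b * u + c * u ^ 2) * (a + b * (-t - u) + c * (-t - u) ^ 2) =
      Nf a b c (t ^ 3 - 3 * t) := by
  have e : t ^ 3 - 3 * t = t * u * (-t - u) := by rw [← h]; ring
  rw [e]
  unfold Nf Qf
  linear_combination (2 * a ^ 2 * c - a * b ^ 2 + a * c ^ 2 * (t ^ 2 + t * u + u ^ 2 + 3) -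
    b * c ^ 2 * (t * u * (-t - u))) * h

/-- the decomposition along `X ^ 3 - 3 X` -/
noncomputable def dec (A B C : R[X]) : R[X] :=
  A.comp (X ^ 3 - 3 * X) + B.comp (X ^ 3 - 3 * X) * X + C.comp (X ^ 3 - 3 * X) * X ^ 2

theorem exists_dec (g : R[X]) : ∃ A B C, g = dec A B C := by
  induction g using Polynomial.induction_on with
  | C a => exact ⟨C a, 0, 0, by simp [dec]⟩
  | add p q hp hq =>
    obtain ⟨A, B, C, rfl⟩ := hp
    obtain ⟨A', B', C', rfl⟩ := hq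
    exact ⟨A + A', B + B', C + C', by simp only [dec, add_comp]; ring⟩
  | monomial n a h =>
    obtain ⟨A, B, C, e⟩ := h
    refine ⟨X * C, A + 3 * C, B, ?_⟩
    rw [pow_succ, ← mul_assoc, e]
    simp only [dec, add_comp, mul_comp, X_comp, ofNat_comp]
    push_cast
    ring

/-- `G` is the norm of `g` -/
def Rel (g G : R[X]) : Prop := ∃ A B C, g = dec A B C ∧ G = Nf A B C X

/-- iterated norms -/
def Ch : ℕ → R[X] → R[X] → Prop
  | 0, g, G => G = g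
  | j + 1, g, G => ∃ g1, Rel g g1 ∧ Ch j g1 G

theorem frob (h : ∀ a : R, 3 ∣ a ^ 3 - a) (A : R[X]) : 3 ∣ A ^ 3 - A.comp (X ^ 3 - 3 * X) := by
  induction A using Polynomial.induction_on with
  | C a =>
    obtain ⟨b, hb⟩ := h a
    exact ⟨C b, by rw [C_comp, ← C_pow, ← C_sub, hb, C_mul]; rfl⟩
  | add p q hp hq =>
    obtain ⟨u, hu⟩ := hp
    obtain ⟨v, hv⟩ := hq
    exact ⟨u + v + p ^ 2 * q + p * q ^ 2, by rw [add_comp]; linear_combination hu + hv⟩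
  | monomial n a h =>
    obtain ⟨u, hu⟩ := h
    rw [pow_succ X n, ← mul_assoc, mul_comp (C a * X ^ n), X_comp]
    exact ⟨u * X ^ 3 + X * (C a * X ^ n).comp (X ^ 3 - 3 * X), by linear_combination X ^ 3 * hu⟩

theorem Rel.base (h : ∀ a : R, 3 ∣ a ^ 3 - a) {g G : R[X]} (r : Rel g G) : 3 ∣ G - g := by
  obtain ⟨A, B, C, rfl, rfl⟩ := r
  obtain ⟨a, ha⟩ := frob h A
  obtain ⟨b, hb⟩ := frob h B
  obtain ⟨c, hc⟩ := frob h C
  exact ⟨a + b * X + c * X ^ 2 + Qf A B C X, by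
    unfold Nf dec; linear_combination ha + X * hb + X ^ 2 * hc⟩

theorem Nf_congr (t a b c a' b' c' y : R) :
    9 * t ∣ Nf (a + 3 * t * a') (b + 3 * t * b') (c + 3 * t * c') y - Nf a b c y := by
  have h1 : ∀ a a' : R, 9 * t ∣ (a + 3 * t * a') ^ 3 - a ^ 3 := fun a a' =>
    ⟨a ^ 2 * a' + 3 * t * a * a' ^ 2 + 3 * t ^ 2 * a' ^ 3, by ring⟩
  have h2 : 3 * t ∣ Qf (a + 3 * t * a') (b + 3 * t * b') (c + 3 * t * c') y - Qf a b c y := by
    have h0 : Ideal.Quotient.mk (Ideal.span {3 * t}) (3 * t) = 0 :=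
      Ideal.Quotient.eq_zero_iff_mem.2 (Ideal.mem_span_singleton_self _)
    rw [← Ideal.mem_span_singleton, ← Ideal.Quotient.eq]
    simp only [Qf, map_sub, map_add, map_pow, map_mul _ (3 * t), h0, zero_mul, add_zero,
      map_mul _ _ y, map_mul _ _ (_ ^ 2), map_mul _ (_ + _), map_mul _ _ (_ + _), map_mul _ a,
      map_mul _ _ c, map_mul _ _ a]
  obtain ⟨u, hu⟩ := h1 a a'
  obtain ⟨v, hv⟩ := h1 b b'
  obtain ⟨w, hw⟩ := h1 c c'
  obtain ⟨q, hq⟩ := h2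
  exact ⟨u + v * y + w * y ^ 2 + q, by
    unfold Nf; linear_combination hu + y * hv + y ^ 2 * hw + 3 * hq⟩

theorem Rel.step {g G : R[X]} {m : ℕ} (r : Rel g G) (h : 3 ^ (m + 1) ∣ G - g) :
    ∃ G', Rel G G' ∧ 3 ^ (m + 2) ∣ G' - G := by
  obtain ⟨A, B, C, rfl, e⟩ := r
  obtain ⟨u, hu⟩ := h
  obtain ⟨a, b, c, rfl⟩ := exists_dec u
  refine ⟨_, ⟨A + 3 * 3 ^ m * a, B + 3 * 3 ^ m * b, C + 3 * 3 ^ m * c, ?_, rfl⟩, ?_⟩
  · simp only [dec, add_comp, mul_comp, pow_comp, ofNat_comp] at hu ⊢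
    push_cast
    linear_combination hu
  · rw [e, show (3 : R[X]) ^ (m + 2) = 9 * 3 ^ m by ring]
    exact Nf_congr _ _ _ _ _ _ _ _

theorem chain (j : ℕ) : ∀ (m : ℕ) (g g1 : R[X]), Rel g g1 → 3 ^ (m + 1) ∣ g1 - g →
    ∃ G G', Ch j g G ∧ Rel G G' ∧ 3 ^ (m + j + 1) ∣ G' - G ∧ 3 ∣ G - g := by
  induction j with
  | zero => exact fun m g g1 r h => ⟨g, g1, rfl, r, h, by simp⟩
  | succ j ih =>
    intro m g g1 r h
    obtain ⟨g2, r2, h2⟩ := r.step h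
    obtain ⟨G, G', c, r', h', h3⟩ := ih (m + 1) g1 g2 r2 h2
    refine ⟨G, G', ⟨g1, r, c⟩, r', by rwa [show m + (j + 1) = m + 1 + j by ring], ?_⟩
    have := dvd_add h3 ((dvd_pow_self 3 m.succ_ne_zero).trans h)
    rwa [sub_add_sub_cancel] at this

theorem Rel.eval {g G : R[X]} (r : Rel g G) : G.eval 2 = g.eval 2 * g.eval (-1) ^ 2 := by
  obtain ⟨A, B, C, rfl, rfl⟩ := r
  have e := map_Nf (evalRingHom (2 : R)) A B C X
  simp only [coe_evalRingHom, eval_X] at e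
  rw [e]
  simp only [dec, eval_add, eval_mul, eval_comp, eval_sub, eval_pow, eval_X, eval_ofNat]
  rw [show (2 : R) ^ 3 - 3 * 2 = 2 by ring, show (-1 : R) ^ 3 - 3 * -1 = 2 by ring]
  unfold Nf Qf
  ring

/-- the congruence for iterated norms -/
theorem coleman (h : ∀ a : R, 3 ∣ a ^ 3 - a) (j : ℕ) (g : R[X]) :
    ∃ G, Ch j g G ∧ 3 ∣ G.eval 2 - g.eval 2 ∧ 3 ^ (j + 1) ∣ G.eval 2 * (G.eval (-1) ^ 2 - 1) := by
  obtain ⟨A, B, C, e⟩ := exists_dec g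
  have r : Rel g (Nf A B C X) := ⟨A, B, C, e, rfl⟩
  obtain ⟨G, G', c, r', h1, h2⟩ := chain j 0 g _ r (by simpa using r.base h)
  refine ⟨G, c, by simpa using map_dvd (evalRingHom (2 : R)) h2, ?_⟩
  have := map_dvd (evalRingHom (2 : R)) h1
  simp only [coe_evalRingHom, eval_pow, eval_ofNat, eval_sub, r'.eval, zero_add] at this
  rwa [mul_sub, mul_one]

theorem exists_ch (j : ℕ) (g : R[X]) : ∃ G, Ch j g G := by
  induction j generalizing g with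
  | zero => exact ⟨g, rfl⟩
  | succ j ih =>
    obtain ⟨A, B, C, e⟩ := exists_dec g
    obtain ⟨G, h⟩ := ih (Nf A B C X)
    exact ⟨G, _, ⟨A, B, C, e, rfl⟩, h⟩

end Pool.Agent.MP_1246c0_nt.H55
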