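import Mathlib

/-! Real quadratic fields and boundedness of the `3`-class numbers in the cyclotomic tower. -/

namespace Pool.Agent.MP_1246c0_nt.H55

open NumberField

/-- `D > 1` is a fundamental discriminant. -/
def Fund (D : ℕ) : Prop :=
  1 < D ∧ ((D % 4 = 1 ∧ Squarefree D) ∨ ∃ m, D = 4 * m ∧ (m % 4 = 2 ∨ m % 4 = 3) ∧ Squarefree m)

/-- The real quadratic field `ℚ(√D)` inside `ℂ`. -/
noncomputable def kD (D : ℕ) : IntermediateField ℚ ℂ :=
  IntermediateField.adjoin ℚ {((Real.sqrt D : ℝ) : ℂ)}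

/-- The exponent of `3` in the class number of `k K_n` is bounded over `n ≥ 1`, where `K_n` is the
real subfield of degree `3 ^ n` of `ℚ(ζ)`, `ζ` a primitive root of unity of order `3 ^ (n + 1)`. -/
def Green (k : IntermediateField ℚ ℂ) : Prop :=
  ∃ B : ℕ, ∀ n : ℕ, 1 ≤ n → ∀ ζ : ℂ, IsPrimitiveRoot ζ (3 ^ (n + 1)) →
    ∀ K : IntermediateField ℚ ℂ, K ≤ IntermediateField.adjoin ℚ {ζ} →
      Module.finrank ℚ K = 3 ^ n → (∀ x ∈ K, x.im = 0) →
      padicValNat 3 (Nat.card (ClassGroup (RingOfIntegers ↥(k ⊔ K)))) ≤ B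

end Pool.Agent.MP_1246c0_nt.H55
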