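import Pool.Agent.MP_1246c0_nt.H55.SpecA
import Pool.Agent.MP_1246c0_nt.H55.Col

/-! The layers of the tower. -/

namespace Pool.Agent.MP_1246c0_nt.H55

open NumberField IsDedekindDomain Pool.Agent.MP_db5b97_nt.H85 Polynomial WithZero

section Ord

variable {F : Type} [Field F] [NumberField F]

theorem ord_nonneg (w : Sp F) {x : Un F} (a : 𝓞 F) (h : x.val = a) : 0 ≤ ord w x := by
  have := val_le_one w a
  rw [← h, val_eq_exp, ← exp_zero, exp_le_exp] at this
  omega

theorem ord_pos (w : Sp F) {x : Un F} (a : 𝓞 F) (h : x.val = a) (ha : a ∈ w.asIdeal) :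
    0 < ord w x := by
  have := (val_lt_one_iff w a).2 ha
  rw [← h, val_eq_exp, ← exp_zero, exp_lt_exp] at this
  omega

theorem ord_add_lt (w : Sp F) {x y z : Un F} (h : z.val = x.val + y.val) (hl : ord w x < ord w y) :
    ord w z = ord w x := by
  have : w.valuation F y.val < w.valuation F x.val := by
    rw [val_eq_exp, val_eq_exp, exp_lt_exp]
    omega
  rw [ord_apply, ord_apply, h, Valuation.map_add_eq_of_lt_left _ this]

theorem ord_add_le (w : Sp F) {x y z : Un F} (h : z.val = x.val + y.val) (hl : ord w y ≤ ord w x) :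
    ord w y ≤ ord w z := by
  have h1 : w.valuation F x.val ≤ w.valuation F y.val := by
    rw [val_eq_exp, val_eq_exp, exp_le_exp]
    omega
  have := Valuation.map_add_le (w.valuation F) h1 le_rfl
  rw [← h, val_eq_exp, val_eq_exp, exp_le_exp] at this
  omega

end Ord

/-- the properties of the layer of degree `3 ^ j` -/
structure Lev (k F : Type) [Field k] [NumberField k] [Field F] [NumberField F] [Algebra k F]
    (j : ℕ) (θ : 𝓞 F) : Prop where
  rank : Module.finrank k F = 3 ^ j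
  real : IsTotallyReal F
  gen : ∀ x : F, ∃ g : k[X], x = aeval (θ : F) g
  unit : IsUnit (θ + 2)
  pi : ∃ ρ : ℤ[X], (θ - 2) * aeval θ ρ = 3
  ordp : ∀ π : Un F, π.val = θ - 2 → ∀ w : Pl F 3, ¬ 3 ∣ ord w.1 π
  inj : Function.Injective fun w : Pl F 3 => w.und k
  ordn : ∀ (w : Pl F 3) (x : Un F), ord (w.und k).1 (Un.nrm k F x) = ord w.1 x
  npi : Algebra.norm k ((θ : F) - 2) = -3
  col : ∀ (R : Subring k) (g G : R[X]), Ch j g G → aeval (θ : F) g ≠ 0 →
    Algebra.norm k (aeval (θ : F) g) = (G.eval (-1) : R)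

theorem Lev.zero (k : Type) [Field k] [NumberField k] [IsTotallyReal k]
    (h : Module.finrank ℚ k = 2) : Lev k k 0 (-1) := by
  have hu : ∀ w : Pl k 3, w.und k = w := fun w =>
    Subtype.ext (HeightOneSpectrum.ext (Ideal.ext fun x => Iff.rfl))
  refine ⟨by simp, inferInstance, fun x => ⟨C x, by simp⟩, by norm_num, ⟨-1, by simp; norm_num⟩,
    fun π hπ w => ?_, fun w w' e => by simpa only [hu] using e, fun w x => ?_,
    by simp; norm_num, fun R g G c _ => ?_⟩
  · have e : π = mkI (-3) (by norm_num) := Un.ext (by rw [hπ]; simp [map_ofNat]; norm_num)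
    have h1 := ord_pos w.1 (x := π) (-3) (by rw [e]; rfl) (neg_mem (by simpa using w.2))
    rw [e, ord_mkI, Ideal.span_singleton_neg] at h1 ⊢
    have h2 := map_dvd Ideal.absNorm (pow_multiplicity_dvd w.1.asIdeal (Ideal.span {(3 : 𝓞 k)}))
    have h3 : Ideal.absNorm (Ideal.span {(3 : 𝓞 k)}) = 9 := by
      have := Ideal.absNorm_span_natCast (S := 𝓞 k) 3
      rw [RingOfIntegers.rank, h] at this
      simpa using this
    rw [h3, map_pow] at h2
    have h4 := Nat.le_of_dvd (by norm_num) h2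
    have h5 : Ideal.absNorm w.1.asIdeal ≠ 1 := fun h =>
      w.1.isPrime.ne_top (Ideal.absNorm_eq_one_iff.1 h)
    set m := multiplicity w.1.asIdeal (Ideal.span {(3 : 𝓞 k)})
    set a := Ideal.absNorm w.1.asIdeal
    intro h6
    have h7 : 3 ≤ m := by omega
    have h8 : a ^ 3 ∣ 9 := (pow_dvd_pow a h7).trans h2
    have h9 : a ≤ 9 := Nat.le_of_dvd (by norm_num) ((dvd_pow_self a (by norm_num)).trans h8)
    interval_cases a <;> simp_all
  · rw [hu]
    exact congrArg _ (Un.ext (by simp))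
  · obtain rfl : G = g := c
    have : (((-1 : 𝓞 k)) : k) = algebraMap R k (-1) := by simp
    rw [this, aeval_algebraMap_apply_eq_algebraMap_eval]
    simp
    rfl

section Step

variable {k K F : Type} [Field k] [NumberField k] [Field K] [NumberField K] [Field F]
  [NumberField F] [Algebra k K] [Algebra K F] [Algebra k F] [IsScalarTower k K F] [IsGalois K F]

omit [NumberField K] [NumberField F] [IsGalois K F] in
theorem aut_ext {t : F} (hg : ∀ x : F, ∃ P : K[X], x = aeval t P) {σ τ : F ≃ₐ[K] F}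
    (h : σ t = τ t) : σ = τ := by
  ext x
  obtain ⟨P, rfl⟩ := hg x
  rw [← aeval_algHom_apply σ, ← aeval_algHom_apply τ, h]

omit [NumberField K] [NumberField F] [IsGalois K F] in
theorem aut_root {t : F} {y : K} (ht : t ^ 3 - 3 * t = algebraMap K F y) (σ : F ≃ₐ[K] F) :
    σ t ^ 3 - 3 * σ t = algebraMap K F y := by
  simpa [map_ofNat] using congrArg σ ht

omit [IsGalois K F] in
theorem card_le {t : F} {y : K} (ht : t ^ 3 - 3 * t = algebraMap K F y)
    (hg : ∀ x : F, ∃ P : K[X], x = aeval t P) : Nat.card (F ≃ₐ[K] F) ≤ 3 := by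
  classical
  set P : F[X] := X ^ 3 - 3 * X - C (algebraMap K F y) with hP
  have hd : P.natDegree = 3 := by rw [hP]; compute_degree!
  have h0 : P ≠ 0 := fun h => by rw [h] at hd; simp at hd
  rw [Nat.card_eq_fintype_card, ← Finset.card_univ, ← hd]
  refine le_trans (Finset.card_le_card_of_injOn (fun σ => σ t) (fun σ _ => ?_)
    fun σ _ τ _ e => aut_ext hg e) ((Multiset.toFinset_card_le _).trans (card_roots' P))
  rw [Finset.mem_coe, Multiset.mem_toFinset, mem_roots h0]
  simp [hP, aut_root ht σ]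

theorem norm_cubic {t : F} {y : K} (ht : t ^ 3 - 3 * t = algebraMap K F y)
    (hg : ∀ x : F, ∃ P : K[X], x = aeval t P) (hG : Nat.card (F ≃ₐ[K] F) = 3) (a b c : K)
    (h0 : algebraMap K F a + algebraMap K F b * t + algebraMap K F c * t ^ 2 ≠ 0) :
    Algebra.norm K (algebraMap K F a + algebraMap K F b * t + algebraMap K F c * t ^ 2) =
      Nf a b c y := by
  have : Nontrivial (F ≃ₐ[K] F) := Finite.one_lt_card_iff_nontrivial.1 (by omega)
  obtain ⟨σ, hσ⟩ := exists_ne (1 : F ≃ₐ[K] F)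
  have : Fact (Nat.Prime 3) := ⟨Nat.prime_three⟩
  have ho : orderOf σ = 3 := orderOf_eq_prime (hG ▸ pow_card_eq_one') hσ
  have hσ2 : σ ^ 2 ≠ 1 := pow_ne_one_of_lt_orderOf two_ne_zero (by omega)
  have n1 : σ t ≠ t := fun h => hσ (aut_ext hg h)
  have n2 : (σ ^ 2) t ≠ t := fun h => hσ2 (aut_ext hg h)
  have n3 : (σ ^ 2) t ≠ σ t := fun h => n1 (σ.injective (by rw [sq] at h; exact h))
  have r1 := aut_root ht σ
  have r2 := aut_root ht (σ ^ 2)
  have q1 : t ^ 2 + t * σ t + σ t ^ 2 = 3 :=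
    mul_left_cancel₀ (sub_ne_zero.2 n1) (by linear_combination r1 - ht)
  have q2 : t ^ 2 + t * (σ ^ 2) t + (σ ^ 2) t ^ 2 = 3 :=
    mul_left_cancel₀ (sub_ne_zero.2 n2) (by linear_combination r2 - ht)
  have q3 : (σ ^ 2) t = -t - σ t :=
    mul_left_cancel₀ (sub_ne_zero.2 n3) (by linear_combination q2 - q1)
  have e := congrArg Un.val (NT2.inc_nrm K F (F ≃ₐ[K] F) σ 3 Nat.prime_three hG hσ (Un.mk _ h0))
  rw [Un.val_inc, Un.val_nrm, Nm_apply, Un.val_sum] at e
  simp only [Finset.prod_range_succ, Finset.prod_range_zero, one_mul, Un.val_smul, Un.val_mk,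
    pow_zero, pow_one, AlgEquiv.one_apply, AlgEquiv.smul_def, map_add, map_mul, map_pow, AlgEquiv.commutes,
    q3] at e
  refine (algebraMap K F).injective ?_
  rw [e, map_Nf, ← ht, Nf_prod _ _ _ _ _ q1]

theorem Lev.step {j : ℕ} {θK : 𝓞 K} (h : Lev k K j θK) (θ : 𝓞 F)
    (hθ : θ ^ 3 - 3 * θ = algebraMap (𝓞 K) (𝓞 F) θK)
    (hg : ∀ x : F, ∃ P : K[X], x = aeval (θ : F) P) :
    Lev k F (j + 1) θ ∧ Nat.card (F ≃ₐ[K] F) = 3 ∧ Unr K F 3 ∧
      Nat.card (Pl F 3) = Nat.card (Pl K 3) := by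
  have ht : (θ : F) ^ 3 - 3 * θ = algebraMap K F θK := by
    have := congrArg (algebraMap (𝓞 F) F) hθ
    rw [map_sub, map_mul, map_pow, map_ofNat] at this
    exact this
  obtain ⟨ρ, hρ⟩ := h.pi
  have hρF : (θ - 2) * ((θ + 1) ^ 2 * aeval θ (ρ.comp (X ^ 3 - 3 * X))) = 3 := by
    have e := congrArg (algebraMap (𝓞 K) (𝓞 F)) hρ
    rw [map_mul, map_sub, ← aeval_algebraMap_apply, ← hθ, map_ofNat, map_ofNat] at e
    rw [aeval_comp]
    simp only [map_sub, map_pow, map_mul, aeval_X, map_ofNat]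
    linear_combination e
  have hK0 : θK - 2 ≠ 0 := left_ne_zero_of_mul (by rw [hρ]; norm_num)
  have hρ0 : aeval θK ρ ≠ 0 := right_ne_zero_of_mul (by rw [hρ]; norm_num)
  have hF0 : θ - 2 ≠ 0 := left_ne_zero_of_mul (by rw [hρF]; norm_num)
  have hF1 : θ + 1 ≠ 0 := fun h0 => by rw [h0] at hρF; norm_num at hρF
  have e1 : Un.inc K F (mkI _ hK0) = mkI _ hF0 + 2 • mkI _ hF1 := Un.ext (by
    simp only [Un.val_inc, val_mkI, Un.val_add, Un.val_nsmul, map_sub, map_add, map_ofNat, map_one]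
    linear_combination -ht)
  have e2 : (Un.mk 3 three_ne_zero : Un F) = Un.inc K F (mkI _ hK0 + mkI _ hρ0) := Un.ext (by
    rw [Un.val_inc, Un.val_add, val_mkI, val_mkI, ← map_mul, hρ, map_ofNat, map_ofNat, Un.val_mk])
  have key : ∀ w : Pl F 3, (w.1.asIdeal.ramificationIdx (𝓞 K) : ℤ) *
      ord (w.und K).1 (mkI _ hK0) = 3 * ord w.1 (mkI _ hF0) := by
    intro w
    have a1 := NT2.ord_inc K F w.1 (mkI _ hK0)
    have a2 := NT2.ord_inc K F w.1 (mkI _ hρ0)
    have a3 := congrArg (ord w.1) e2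
    rw [map_add, map_add, a2] at a3
    have a4 := mul_nonneg (Nat.cast_nonneg (α := ℤ) (w.1.asIdeal.ramificationIdx (𝓞 K)))
      (ord_nonneg (und K w.1) (x := mkI _ hρ0) _ rfl)
    have a5 := ord_pos w.1 (x := Un.mk 3 three_ne_zero) 3 (by simp [map_ofNat]) (by simpa using w.2)
    have a6 := congrArg (ord w.1) e1
    rw [map_add, map_nsmul, nsmul_eq_mul] at a6
    have a7 : (mkI _ hF1).val = (mkI _ hF0).val + (Un.mk (3 : F) three_ne_zero).val := by
      simp only [val_mkI, map_sub, map_add, map_ofNat, map_one, Un.val_mk]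
      ring
    refine a1.symm.trans ?_
    rcases lt_or_ge (ord w.1 (mkI _ hF0)) (ord w.1 (Un.mk 3 three_ne_zero)) with h1 | h1
    · have := ord_add_lt w.1 a7 h1
      push_cast at a6
      omega
    · have := ord_add_le w.1 a7 h1
      push_cast at a6
      omega
  have hle := card_le ht hg
  have hin : ∀ w : Pl F 3, Nat.card (w.1.asIdeal.inertia (F ≃ₐ[K] F)) =
      w.1.asIdeal.ramificationIdx (𝓞 K) := by
    intro w
    have : w.1.asIdeal.LiesOver (und K w.1).asIdeal := ⟨rfl⟩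
    have := w.1.isPrime
    have := (und K w.1).isMaximal
    have : Finite (𝓞 K ⧸ (und K w.1).asIdeal) :=
      Ideal.finiteQuotientOfFreeOfNeBot _ (und K w.1).ne_bot
    rw [← Ideal.ramificationIdxIn_eq_ramificationIdx (und K w.1).asIdeal w.1.asIdeal (F ≃ₐ[K] F),
      ← Ideal.card_inertia_eq_ramificationIdxIn (G := F ≃ₐ[K] F) (und K w.1).asIdeal w.1.asIdeal]
  have h3 : ∀ w : Pl F 3, 3 ≤ Nat.card (w.1.asIdeal.inertia (F ≃ₐ[K] F)) := by
    intro w
    have b1 : (3 : ℤ) ∣ _ := ⟨_, key w⟩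
    have b2 := (Int.prime_three.dvd_or_dvd b1).resolve_right
      (h.ordp _ (by simp [map_ofNat]) (w.und K))
    rw [← hin] at b2
    exact Nat.le_of_dvd Nat.card_pos (by exact_mod_cast b2)
  have htop : ∀ w : Pl F 3, w.1.asIdeal.inertia (F ≃ₐ[K] F) = ⊤ := fun w =>
    Subgroup.eq_top_of_le_card _ (hle.trans (h3 w))
  have hne : Nonempty (Pl F 3) := by
    obtain ⟨M, hM, hle⟩ := Ideal.exists_le_maximal (Ideal.span {(3 : 𝓞 F)}) (by
      rw [Ne, Ideal.span_singleton_eq_top]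
      intro hu
      have := (isUnit_iff_dvd_one.1 hu)
      have h2 := map_dvd (Algebra.norm ℤ) this
      rw [map_one, show (3 : 𝓞 F) = algebraMap ℤ (𝓞 F) 3 by simp, Algebra.norm_algebraMap] at h2
      have h4 := (dvd_pow_self (3 : ℤ) (Module.finrank_pos (R := ℤ) (M := 𝓞 F)).ne').trans h2
      omega)
    have h3M : (3 : 𝓞 F) ∈ M := hle (Ideal.mem_span_singleton_self _)
    exact ⟨⟨⟨M, hM.isPrime, fun h0 => by simp [h0] at h3M⟩, by simpa using h3M⟩⟩
  have hG : Nat.card (F ≃ₐ[K] F) = 3 := by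
    obtain ⟨w⟩ := hne
    exact le_antisymm hle ((h3 w).trans (Subgroup.card_le_card_group _))
  have he : ∀ w : Pl F 3, w.1.asIdeal.ramificationIdx (𝓞 K) = 3 := fun w => by
    rw [← hin, htop, Subgroup.card_top, hG]
  have hfix : ∀ (s : F ≃ₐ[K] F) (w : Pl F 3), s • w.1 = w.1 := fun s w =>
    HeightOneSpectrum.ext (Ideal.inertia_le_stabilizer w.1.asIdeal (htop w ▸ Subgroup.mem_top s))
  have hinj : Function.Injective fun w : Pl F 3 => w.und K := by
    intro w w' e
    have h1 := w.1.isPrime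
    have h2 := w'.1.isPrime
    obtain ⟨s, hs⟩ := Algebra.IsInvariant.exists_smul_of_under_eq (𝓞 K) (𝓞 F) (F ≃ₐ[K] F)
      w.1.asIdeal w'.1.asIdeal (congrArg (fun v : Pl K 3 => v.1.asIdeal) e)
    exact Subtype.ext ((hfix s w).symm.trans (HeightOneSpectrum.ext hs.symm))
  have hund : ∀ w : Pl F 3, w.und k = (w.und K).und k := fun w =>
    Subtype.ext (HeightOneSpectrum.ext (Ideal.under_under w.1.asIdeal).symm)
  have hrk : Module.finrank K F = 3 := by rw [← IsGalois.card_aut_eq_finrank, hG]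
  have hunit : IsUnit ((θ + 2) * (θ - 1) ^ 2) := by
    have := h.unit.map (algebraMap (𝓞 K) (𝓞 F))
    rw [map_add, ← hθ, map_ofNat] at this
    rwa [show (θ + 2) * (θ - 1) ^ 2 = θ ^ 3 - 3 * θ + 2 by ring]
  have hnrm : ∀ x : Un F, Un.nrm k F x = Un.nrm k K (Un.nrm K F x) := fun x =>
    Un.ext Algebra.norm_norm.symm
  have hcomp : ∀ (R : Subring k) (A : R[X]), aeval (θ : F) (A.comp (X ^ 3 - 3 * X)) =
      algebraMap K F (aeval (θK : K) A) := fun R A => by
    rw [aeval_comp, ← aeval_algebraMap_apply, ← ht]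
    simp only [map_sub, map_pow, map_mul, aeval_X, map_ofNat]
  refine ⟨⟨?_, ?_, fun x => ?_, isUnit_of_mul_isUnit_left hunit,
    ⟨(X + 1) ^ 2 * ρ.comp (X ^ 3 - 3 * X), by simpa using hρF⟩, fun π hπ w => ?_,
    fun w w' e => hinj (h.inj (by simpa only [hund] using e)), fun w x => ?_, ?_,
    fun R g G c h0 => ?_⟩, hG, ?_, ?_⟩
  · rw [← Module.finrank_mul_finrank k K F, h.rank, hrk, pow_succ]
  · have := h.real
    have := IsUnramifiedAtInfinitePlaces_of_odd_card_aut (k := K) (K := F) (by rw [hG]; decide)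
    exact ⟨fun w => (InfinitePlace.isUnramified_iff.1 (w.isUnramified K)).resolve_right
      (InfinitePlace.not_isComplex_iff_isReal.2 (IsTotallyReal.isReal _))⟩
  · obtain ⟨P, rfl⟩ := hg x
    induction P using Polynomial.induction_on with
    | C a =>
      obtain ⟨g, rfl⟩ := h.gen a
      refine ⟨g.comp (X ^ 3 - 3 * X), ?_⟩
      rw [aeval_C, aeval_comp, ← aeval_algebraMap_apply, ← ht]
      simp only [map_sub, map_pow, map_mul, aeval_X, map_ofNat]
    | add p q hp hq =>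
      obtain ⟨g, hg⟩ := hp
      obtain ⟨g', hg'⟩ := hq
      exact ⟨g + g', by rw [map_add, map_add, hg, hg']⟩
    | monomial n a hp =>
      obtain ⟨g, hg⟩ := hp
      exact ⟨g * X, by rw [pow_succ, ← mul_assoc, map_mul, map_mul (aeval _) g, hg, aeval_X,
        aeval_X]⟩
  · obtain rfl : π = mkI _ hF0 := Un.ext (by simp [hπ, map_ofNat])
    have := key w
    rw [he] at this
    have h2 := h.ordp (mkI _ hK0) (by simp [map_ofNat]) (w.und K)
    push_cast at this
    omega
  · have : Nontrivial (F ≃ₐ[K] F) := Finite.one_lt_card_iff_nontrivial.1 (by omega)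
    obtain ⟨σ, hσ⟩ := exists_ne (1 : F ≃ₐ[K] F)
    have a1 := NT2.ord_inc K F w.1 (Un.nrm K F x)
    have a2 : ∀ s : F ≃ₐ[K] F, ord w.1 (s • x) = ord w.1 x := fun s => by
      rw [← NT2.ord_smul F _ s w.1 x, hfix]
    rw [NT2.inc_nrm K F (F ≃ₐ[K] F) σ 3 Nat.prime_three hG hσ, Nm_apply, map_sum, he] at a1
    simp only [a2, Finset.sum_const, Finset.card_range, nsmul_eq_mul] at a1
    rw [hund, hnrm, h.ordn]
    exact (mul_left_cancel₀ (by norm_num) a1).symm
  · have e : (θ : F) - 2 = algebraMap K F (-2) + algebraMap K F 1 * θ + algebraMap K F 0 * θ ^ 2 := by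
      simp [map_ofNat]; ring
    have h0 : (θ : F) - 2 ≠ 0 := by simpa [map_ofNat] using (mkI _ hF0).val_ne
    rw [← Algebra.norm_norm (S := K), e, norm_cubic ht hg hG _ _ _ (e ▸ h0), ← h.npi]
    refine congrArg _ ?_
    unfold Nf Qf
    ring
  · obtain ⟨_, ⟨A, B, C, rfl, rfl⟩, c⟩ := c
    have e : aeval (θ : F) (dec A B C) = algebraMap K F (aeval (θK : K) A) +
        algebraMap K F (aeval (θK : K) B) * θ + algebraMap K F (aeval (θK : K) C) * θ ^ 2 := by
      simp only [dec, map_add, map_mul, map_pow, aeval_X, hcomp]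
    have e' : Algebra.norm K (aeval (θ : F) (dec A B C)) = aeval (θK : K) (Nf A B C X) := by
      rw [e, norm_cubic ht hg hG _ _ _ (e ▸ h0)]
      simp [Nf, Qf, map_ofNat]
    rw [← Algebra.norm_norm (S := K), e']
    exact h.col R _ G c (by rw [← e']; simpa using h0)
  · refine NT2.unr K F (F ≃ₐ[K] F) 3 fun s hs w => ⟨θ, fun hm => ?_⟩
    have n1 : s (θ : F) ≠ θ := fun h => hs (aut_ext hg h)
    have q1 : (θ : F) ^ 2 + θ * s θ + s θ ^ 2 = 3 :=
      mul_left_cancel₀ (sub_ne_zero.2 n1) (by linear_combination aut_root ht s - ht)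
    have q2 : θ ^ 2 + θ * (s • θ) + (s • θ) ^ 2 = 3 := RingOfIntegers.ext (by
      simp only [map_add, map_mul, map_pow, map_ofNat]
      exact q1)
    have q3 : 3 * ((θ - 1) * (θ + 1)) ∈ w.1.asIdeal := by
      have : 3 * ((θ - 1) * (θ + 1)) = -(s • θ + 2 * θ) * (s • θ - θ) := by linear_combination q2
      rw [this]
      exact Ideal.mul_mem_left _ _ hm
    have hp := w.1.isPrime
    have n3 : (3 : 𝓞 F) ∉ w.1.asIdeal := by simpa using w.2
    rcases hp.mem_or_mem ((hp.mem_or_mem q3).resolve_left n3) with h1 | h1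
    · exact hp.ne_top (Ideal.eq_top_of_isUnit_mem _
        (Ideal.mul_mem_left _ _ (Ideal.pow_mem_of_mem _ h1 2 two_pos)) hunit)
    · exact n3 (hρF ▸ Ideal.mul_mem_left _ _ (Ideal.mul_mem_right _ _
        (Ideal.pow_mem_of_mem _ h1 2 two_pos)))
  · exact Nat.card_eq_of_bijective _ ⟨hinj, (Pool.Agent.MP_db5b97_nt.H10.rowNT1.und_surj K F 3).1⟩

end Step

end Pool.Agent.MP_1246c0_nt.H55
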