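import Pool.Agent.MP_1246c0_nt.H55.SpecC
import Pool.Agent.MP_db5b97_nt.H10.NT1
import Pool.Agent.MP_db5b97_nt.H21.NT2
import Pool.Agent.MP_db5b97_nt.H25.HQ
import Pool.Agent.MP_db5b97_nt.H74.LAY
import Pool.Agent.MP_db5b97_nt.H79.UQ

/-! Statements of the algebraic part. -/

namespace Pool.Agent.MP_1246c0_nt.H55

open NumberField IsDedekindDomain Pool.Agent.MP_db5b97_nt.H85

/-- units outside `3` -/
noncomputable def SU (F : Type) [Field F] [NumberField F] : AddSubgroup (Un F) := (dv F 3).ker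

/-- the class group outside `3` has no element of order `3` -/
def NoT (F : Type) [Field F] [NumberField F] : Prop :=
  ∀ D : Dv F 3, 3 • D ∈ (dv F 3).range → D ∈ (dv F 3).range

/-- the local norm group of the layer of degree `3 ^ j` -/
def Lam (j : ℕ) (x : ℚ_[3]) : Prop := ∃ m : ℤ, ‖(x / 3 ^ m) ^ 2 - 1‖ ≤ (3 : ℝ)⁻¹ ^ (j + 1)

/-- the sufficient condition -/
def Good (k : Type) [Field k] [NumberField k] : Prop :=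
  NoT k ∧ (Nat.card (Pl k 3) = 1 ∨
    (Nat.card (Pl k 3) = 2 ∧ ∃ ι : k →+* ℚ_[3], ∃ η ∈ SU k, ¬ Lam 1 (ι η.val)))

/-- the filtration of the multiplicative group of `ℚ_[3]` -/
structure RowPAD : Prop where
  one : ∀ j, Lam j 1
  mul : ∀ j x y, Lam j x → Lam j y → Lam j (x * y)
  inv : ∀ j x, Lam j x → Lam j x⁻¹
  three : ∀ j, Lam j 3 ∧ Lam j (-1)
  cube : ∀ x, x ≠ 0 → Lam 1 (x ^ 3)
  dvd : ∀ η, η ≠ 0 → ¬ Lam 1 η → ∀ j m : ℕ, Lam j (η ^ m) → 3 ^ j ∣ m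
  adj : ∀ ε : ℚ_[3], ε ≠ 0 → (∀ m : ℤ, (ε / 3 ^ m) ^ 2 ≠ 1) →
    ∃ c : ℕ, ∀ (j : ℕ) (y : ℚ_[3]), y ≠ 0 → ∃ m : ℕ, Lam j (y ^ 3 ^ c * ε ^ m)
  col : ∃ col : ℚ_[3] → Fin 3, ∀ x y, x ≠ 0 → y ≠ 0 → col x = col y → Lam 1 (x / y)

/-- ambiguous classes in a cyclic cubic layer -/
def RowLAYER : Prop :=
  ∀ (K F G : Type) [Field K] [NumberField K] [Field F] [NumberField F] [Algebra K F] [Group G]
    [MulSemiringAction G F] [IsGaloisGroup G K F] [IsTotallyReal K] [IsTotallyReal F],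
    Nat.card G = 3 → Unr K F 3 → Nat.card (Pl F 3) = Nat.card (Pl K 3) → NoT K →
    ((SU F).map (Un.nrm K F)).relIndex (SU K) = 3 ^ (Nat.card (Pl K 3) - 1) ∧
    (SU K ⊓ (Un.nrm K F).range ≤ (SU F).map (Un.nrm K F) → NoT F)

/-- bound for the class number -/
def RowCLS : Prop :=
  ∀ (F : Type) [Field F] [NumberField F] (N : ℕ), 0 < N → NoT F → Nat.card (Pl F 3) ≤ 2 →
    (∀ w : Pl F 3, ∃ u ∈ SU F, dvl F 3 u = Finsupp.single w (N : ℤ)) →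
    padicValNat 3 (Nat.card (ClassGroup (𝓞 F))) ≤ N ^ 2

/-- the criterion -/
def RowTOWER : Prop :=
  ∀ (k : IntermediateField ℚ ℂ) [NumberField k] [IsTotallyReal k], Module.finrank ℚ k = 2 →
    Good k → Green k

section Quad

variable {k : Type} [Field k] [NumberField k]

/-- a quadratic field with a square root of its discriminant and its conjugation -/
structure Quad (D : ℕ) (s : k) (τ : k ≃ₐ[ℚ] k) : Prop where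
  rank : Module.finrank ℚ k = 2
  fund : Fund D
  sq : s ^ 2 = D
  conj : τ s = -s

/-- the form `f` is attached to `δ` -/
def Att (s : k) (τ : k ≃ₐ[ℚ] k) (q : ℕ) (δ : k) (f : Fm ℤ) : Prop :=
  δ ≠ 0 ∧ ∃ (α β : k) (n : ℚ), n ≠ 0 ∧ α * τ β - τ α * β = n * s ∧ (n : k) ^ 3 = q * (δ * τ δ) ∧
    ∀ i : Fin 4, IsIntegral ℤ (α ^ (3 - i.1) * β ^ i.1 / δ) ∧
      (f i : k) * s = α ^ (3 - i.1) * β ^ i.1 / δ - τ (α ^ (3 - i.1) * β ^ i.1 / δ)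

/-- elements of norm a cube whose divisor outside `3` is a cube -/
def InW (τ : k ≃ₐ[ℚ] k) (x : Un k) : Prop :=
  (∃ y : Un k, x + τ • x = 3 • y) ∧ ∃ E : Dv k 3, dv k 3 x = 3 • E

end Quad

/-- basic facts on quadratic fields -/
structure RowQB : Prop where
  invol : ∀ (k : Type) [Field k] [NumberField k] (D : ℕ) (s : k) (τ : k ≃ₐ[ℚ] k), Quad D s τ →
    (∀ x, τ (τ x) = x) ∧ (∀ σ : k ≃ₐ[ℚ] k, σ = 1 ∨ σ = τ) ∧ τ ≠ 1 ∧ s ≠ 0 ∧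
    (∀ x, τ x = x → ∃ r : ℚ, x = r) ∧ (∀ x, (Algebra.norm ℚ x : k) = x * τ x) ∧ IsTotallyReal k
  int : ∀ (k : Type) [Field k] [NumberField k] (D : ℕ) (s : k) (τ : k ≃ₐ[ℚ] k), Quad D s τ →
    ∀ x : k, IsIntegral ℤ x → ∃ t m : ℤ, x + τ x = t ∧ x - τ x = m * s
  basis : ∀ (k : Type) [Field k] [NumberField k] (D : ℕ) (s : k) (τ : k ≃ₐ[ℚ] k), Quad D s τ →
    ∀ I : Ideal (𝓞 k), I ≠ ⊥ → ∃ α ∈ I, ∃ β ∈ I,
      (α : k) * τ β - τ α * β = (Ideal.absNorm I : ℕ) * s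
  split : ∀ (k : Type) [Field k] [NumberField k] (D : ℕ) (s : k) (τ : k ≃ₐ[ℚ] k), Quad D s τ →
    D % 3 = 1 → Nonempty (k →+* ℚ_[3]) ∧ Nat.card (Pl k 3) = 2 ∧ ∃ v : Pl k 3, τ • v ≠ v ∧
      ∀ w : Pl k 3, (w = v ∨ w = τ • v) ∧ Ideal.absNorm w.1.asIdeal = 3 ∧
        ord w.1 (Un.mk (3 : k) three_ne_zero) = 1
  nonsplit : ∀ (k : Type) [Field k] [NumberField k] (D : ℕ) (s : k) (τ : k ≃ₐ[ℚ] k), Quad D s τ →
    D % 3 ≠ 1 → Nat.card (Pl k 3) = 1 ∧ ∀ w : Pl k 3, τ • w = w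
  model : ∀ D : ℕ, Fund D → ∃ (_ : NumberField (kD D)) (s : kD D) (τ : kD D ≃ₐ[ℚ] kD D),
    Quad D s τ

/-- properties of attached forms -/
structure RowATT : Prop where
  act : ∀ (k : Type) [Field k] [NumberField k] (s : k) (τ : k ≃ₐ[ℚ] k) (q : ℕ) (δ : k) (f : Fm ℤ),
    Att s τ q δ f → ∀ a b c d : ℤ, a * d - b * c = 1 → Att s τ q δ (act f a b c d)
  dsc : ∀ (k : Type) [Field k] [NumberField k] (D : ℕ) (s : k) (τ : k ≃ₐ[ℚ] k) (q : ℕ) (δ : k)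
    (f : Fm ℤ), Quad D s τ → Att s τ q δ f → dsc f = q ^ 2 * D
  aniso : ∀ (k : Type) [Field k] [NumberField k] (D : ℕ) (s : k) (τ : k ≃ₐ[ℚ] k) (q : ℕ) (δ : k)
    (f : Fm ℤ), Quad D s τ → Att s τ q δ f → (¬ ∃ y : k, δ = q * y ^ 3) → Aniso f
  inj : ∀ (k : Type) [Field k] [NumberField k] (D : ℕ) (s : k) (τ : k ≃ₐ[ℚ] k) (q : ℕ) (δ δ' : k)
    (f : Fm ℤ), Quad D s τ → Att s τ q δ f → Att s τ q δ' f → ∃ y : k, δ = δ' * y ^ 3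
  ex : ∀ (k : Type) [Field k] [NumberField k] (D : ℕ) (s : k) (τ : k ≃ₐ[ℚ] k) (x : Un k)
    (Q : Ideal (𝓞 k)), Quad D s τ → Q ≠ ⊥ →
    (∀ w : Sp k, 3 ∣ ord w x + multiplicity w.asIdeal Q) →
    ∃ f, Att s τ (Ideal.absNorm Q) x.val f

/-- the conditions at `3` -/
def RowLOC : Prop :=
  ∀ (k : Type) [Field k] [NumberField k] (D : ℕ) (s : k) (τ : k ≃ₐ[ℚ] k) (δ : k) (f : Fm ℤ)
    (ι : k →+* ℚ_[3]), Quad D s τ → D % 3 = 1 → Lam 1 (ι δ) →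
    (Att s τ 1 δ f → 9 ∣ ev f 1 0 ∨ 9 ∣ ev f 0 1 ∨ 9 ∣ ev f 1 1 ∨ 9 ∣ ev f 1 (-1)) ∧
    (Att s τ 3 δ f → P1 f)

/-- many classes modulo cubes -/
def RowSEL : Prop :=
  ∀ (k : Type) [Field k] [NumberField k] (D : ℕ) (s : k) (τ : k ≃ₐ[ℚ] k), Quad D s τ →
    ∃ T : Finset (Un k), 0 ∈ T ∧ 3 ≤ T.card ∧ (¬ Good k → 9 ≤ T.card) ∧ (∀ x ∈ T, InW τ x) ∧
      (∀ x ∈ T, ∀ y ∈ T, (∃ z : Un k, x - y = 3 • z) → x = y) ∧
      (D % 3 = 1 → ∃ ι : k →+* ℚ_[3], ∀ x ∈ T, Lam 1 (ι x.val))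

end Pool.Agent.MP_1246c0_nt.H55
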