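import Pool.Agent.MP_1246c0_nt.H55.Defs

/-! Binary cubic forms `a x³ + 3 b x² y + 3 c x y² + d y³`: statements of the counting part. -/

namespace Pool.Agent.MP_1246c0_nt.H55

open Filter MeasureTheory
open scoped Pointwise

/-- the coefficients `a, b, c, d` -/
abbrev Fm (R : Type) : Type := Fin 4 → R

section Ring

variable {R : Type} [CommRing R]

/-- the value of the form -/
def ev (f : Fm R) (x y : R) : R :=
  f 0 * x ^ 3 + 3 * f 1 * x ^ 2 * y + 3 * f 2 * x * y ^ 2 + f 3 * y ^ 3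

/-- the reduced discriminant -/
def dsc (f : Fm R) : R :=
  (f 0 * f 3 - f 1 * f 2) ^ 2 - 4 * (f 0 * f 2 - f 1 ^ 2) * (f 1 * f 3 - f 2 ^ 2)

/-- the form `f (p x + q y, r x + s y)` -/
def act (f : Fm R) (p q r s : R) : Fm R :=
  ![ev f p r,
    f 0 * p ^ 2 * q + f 1 * (p ^ 2 * s + 2 * p * q * r) + f 2 * (2 * p * r * s + q * r ^ 2) +
      f 3 * r ^ 2 * s,
    f 0 * p * q ^ 2 + f 1 * (2 * p * q * s + q ^ 2 * r) + f 2 * (p * s ^ 2 + 2 * q * r * s) +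
      f 3 * r * s ^ 2,
    ev f q s]

theorem ev_act (f : Fm R) (p q r s x y : R) :
    ev (act f p q r s) x y = ev f (p * x + q * y) (r * x + s * y) := by
  simp only [ev, act, Matrix.cons_val_zero, Matrix.cons_val_one, Matrix.cons_val]
  ring

theorem dsc_act (f : Fm R) (p q r s : R) : dsc (act f p q r s) = (p * s - q * r) ^ 6 * dsc f := by
  simp only [dsc, ev, act, Matrix.cons_val_zero, Matrix.cons_val_one, Matrix.cons_val]
  ring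

theorem act_act (f : Fm R) (p q r s p' q' r' s' : R) : act (act f p q r s) p' q' r' s' =
    act f (p * p' + q * r') (p * q' + q * s') (r * p' + s * r') (r * q' + s * s') := by
  funext i
  fin_cases i <;> simp [ev, act] <;> ring

theorem act_one (f : Fm R) : act f 1 0 0 1 = f := by
  funext i
  fin_cases i <;> simp [ev, act]

/-- the image of an integral form -/
def cst (R : Type) [CommRing R] (f : Fm ℤ) : Fm R := fun i => (f i : R)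

theorem cst_act (f : Fm ℤ) (p q r s : ℤ) : cst R (act f p q r s) = act (cst R f) p q r s := by
  funext i
  fin_cases i <;> simp [ev, act, cst]

theorem dsc_cst (f : Fm ℤ) : dsc (cst R f) = (dsc f : ℤ) := by simp [dsc, cst]

theorem ev_cst (f : Fm ℤ) (x y : ℤ) : ev (cst R f) x y = (ev f x y : ℤ) := by simp [ev, cst]

end Ring

/-- no nontrivial zero -/
def Aniso (f : Fm ℤ) : Prop := ∀ x y : ℤ, ev f x y = 0 → x = 0 ∧ y = 0

/-- equivalence under the special linear group -/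
def Eqv (f g : Fm ℤ) : Prop :=
  ∃ p q r s p' q' r' s' : ℤ, p * s - q * r = 1 ∧ p' * s' - q' * r' = 1 ∧
    act f p q r s = act g p' q' r' s'

/-- all members of the class of `f` have the property `P` -/
def AllC (P : Fm ℤ → Prop) (f : Fm ℤ) : Prop :=
  ∀ p q r s : ℤ, p * s - q * r = 1 → P (act f p q r s)

/-- the form `(p x + q y) ((x - u y)² + v² y²)` -/
noncomputable def mkF (p q u v : ℝ) : Fm ℝ :=
  ![p, (q - 2 * u * p) / 3, (p * (u ^ 2 + v ^ 2) - 2 * u * q) / 3, q * (u ^ 2 + v ^ 2)]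

theorem dsc_mkF (p q u v : ℝ) :
    27 * dsc (mkF p q u v) = 4 * v ^ 2 * ((p * u + q) ^ 2 + p ^ 2 * v ^ 2) ^ 2 := by
  simp only [dsc, mkF, Matrix.cons_val_zero, Matrix.cons_val_one, Matrix.cons_val]
  ring

/-- the truncated fundamental domain -/
def KT (T : ℝ) : Set (Fm ℝ) :=
  {f | ∃ p q u v : ℝ, 0 ≤ p ∧ |u| ≤ 1 / 2 ∧ 1 ≤ u ^ 2 + v ^ 2 ∧ 0 ≤ v ∧ v ≤ T ∧
    4 * v ^ 2 * ((p * u + q) ^ 2 + p ^ 2 * v ^ 2) ^ 2 ≤ 27 ∧ f = mkF p q u v}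

/-- the volume of the fundamental domain -/
def RowVOL : Prop :=
  ∀ T : ℝ, IsCompact (KT T) ∧ volume (KT T) ≤ ENNReal.ofReal (Real.pi ^ 2 / 4)

/-- lattice points in residue classes in a dilated compact set -/
def RowLAT : Prop :=
  ∀ (K : Set (Fm ℝ)) (V ε : ℝ) (M : ℕ), IsCompact K → 0 ≤ V → volume K ≤ ENNReal.ofReal V →
    0 < ε → 0 < M → ∀ᶠ s : ℝ in atTop, ∀ (Ω : Finset (Fm (ZMod M))) (S : Finset (Fm ℤ)),
      (∀ f ∈ S, cst (ZMod M) f ∈ Ω ∧ cst ℝ f ∈ s • K) →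
      (S.card : ℝ) * M ^ 4 ≤ Ω.card * (V + ε) * s ^ 4

/-- points in the cusp -/
def RowCUSP : Prop :=
  ∃ C : ℝ, ∀ (T X : ℝ) (S : Finset (Fm ℤ)), 1 ≤ T → 0 < X →
    (∀ f ∈ S, (dsc f : ℤ) ≤ X ∧ ∃ p q u v : ℝ, 1 ≤ p ∧ |u| ≤ 1 / 2 ∧ T ≤ v ∧
      cst ℝ f = mkF p q u v) → S.card * T ≤ C * X

/-- reduction theory -/
def RowRED : Prop :=
  ∀ f : Fm ℤ, Aniso f → 0 < dsc f → ∃ a b c d : ℤ, a * d - b * c = 1 ∧
    ∃ p q u v : ℝ, 1 ≤ p ∧ |u| ≤ 1 / 2 ∧ 1 ≤ u ^ 2 + v ^ 2 ∧ 0 < v ∧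
      cst ℝ (act f a b c d) = mkF p q u v

/-- the property `P` forces congruence conditions modulo `M` of density at most `ρ` -/
def Dens (M : ℕ) (P : Fm ℤ → Prop) (ρ : ℝ) : Prop :=
  ∃ Ω : Finset (Fm (ZMod M)), (∀ f, P f → cst (ZMod M) f ∈ Ω) ∧ (Ω.card : ℝ) ≤ ρ * M ^ 4

/-- upper bound for the number of classes -/
def RowCNT : Prop :=
  ∀ (M : ℕ) (P : Fm ℤ → Prop) (ρ ε : ℝ), 0 < M → Dens M P ρ → 0 < ε →
    ∀ᶠ X : ℝ in atTop, ∀ S : Finset (Fm ℤ),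
      (∀ f ∈ S, Aniso f ∧ 0 < dsc f ∧ (dsc f : ℤ) ≤ X ∧ AllC P f) →
      (∀ f ∈ S, ∀ g ∈ S, Eqv f g → f = g) → (S.card : ℝ) ≤ (Real.pi ^ 2 / 4 * ρ + ε) * X

/-- the condition at `3` for forms of discriminant `D ≡ c` -/
def P0 (c : ℕ) (f : Fm ℤ) : Prop :=
  dsc f % 3 = c ∧ ¬ 9 ∣ dsc f ∧
    (c = 1 → 9 ∣ ev f 1 0 ∨ 9 ∣ ev f 0 1 ∨ 9 ∣ ev f 1 1 ∨ 9 ∣ ev f 1 (-1))

/-- the standard position for forms of discriminant `9 D` -/
def Std (f : Fm ℤ) : Prop :=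
  3 ∣ f 1 ∧ 3 ∣ f 2 ∧ ¬ 3 ∣ f 3 ∧ (27 ∣ 3 * (f 3 - f 1) - f 0 ∨ 27 ∣ 3 * (f 3 - f 1) + f 0)

/-- the condition at `3` for forms of discriminant `9 D` -/
def P1 (f : Fm ℤ) : Prop :=
  Std f ∨ Std (act f 0 (-1) 1 0) ∨ Std (act f 1 0 1 1) ∨ Std (act f 1 0 (-1) 1)

/-- the discriminant is not a square multiple of a discriminant at `p` -/
def Mx (p : ℕ) (f : Fm ℤ) : Prop := ¬ ∃ u v : ℤ, dsc f = p ^ 2 * (u ^ 2 - 4 * v)

/-- the primes up to `z` other than `3` -/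
def Pz (z : ℕ) : Finset ℕ := (Finset.range (z + 1)).filter fun p => p.Prime ∧ p ≠ 3

/-- a truncated Euler product -/
noncomputable def PP (z : ℕ) : ℝ := ∏ p ∈ Pz z, (1 - 1 / (p : ℝ) ^ 2)

/-- the density of the discriminants at `3` -/
noncomputable def r3 (c : ℕ) : ℝ := if c = 0 then 2 / 9 else 1 / 3

/-- the density of the forms at `3` -/
noncomputable def r0 (c : ℕ) : ℝ := if c = 0 then 16 / 81 else if c = 1 then 8 / 81 else 24 / 81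

/-- the local density at a prime -/
def RowLOCP : Prop := ∀ p : ℕ, p.Prime → Dens (p ^ 2) (Mx p) ((1 - 1 / (p : ℝ) ^ 2) ^ 2)

/-- the local densities at `3` -/
def RowLOC3 : Prop := (∀ c < 3, Dens 9 (P0 c) (r0 c)) ∧ Dens 27 P1 (16 / 729)

/-- products of densities -/
def RowDEN : Prop :=
  ∀ (z a : ℕ) (P : Fm ℤ → Prop) (ρ : ℝ), Dens (3 ^ a) P ρ →
    ∃ M, 0 < M ∧ Dens M (fun f => P f ∧ ∀ p ∈ Pz z, Mx p f) (ρ * PP z ^ 2)

open Classical in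
/-- lower bound for the number of fundamental discriminants -/
def RowFD : Prop :=
  ∀ c < 3, ∀ z : ℕ, 3 ≤ z → ∀ᶠ X : ℕ in atTop, (r3 c / 2 * PP z - 2 / z) * X ≤
    (((Finset.range (X + 1)).filter fun D => Fund D ∧ D % 3 = c).card : ℝ)

/-- the Euler product -/
def RowEUL : Prop :=
  ∀ η : ℝ, 0 < η → ∀ᶠ z : ℕ in atTop, 1 / 2 ≤ PP z ∧ Real.pi ^ 2 / 6 * (8 / 9 * PP z) ≤ 1 + η

/-- forms attached to a real quadratic field -/
def RowALG : Prop :=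
  ∀ D : ℕ, Fund D → ∃ S0 S1 : Finset (Fm ℤ), 2 ≤ S0.card + S1.card ∧
    (¬ Green (kD D) → 8 ≤ S0.card + S1.card) ∧
    (∀ f ∈ S0, Aniso f ∧ dsc f = D ∧ AllC (P0 (D % 3)) f) ∧
    (∀ f ∈ S1, D % 3 = 1 ∧ Aniso f ∧ dsc f = 9 * D ∧ AllC P1 f) ∧
    (∀ f ∈ S0, ∀ g ∈ S0, Eqv f g → f = g) ∧ ∀ f ∈ S1, ∀ g ∈ S1, Eqv f g → f = g

open Classical in
/-- the theorem -/
def RowFIN : Prop :=
  ∀ c < 3, ∀ ε : ℝ, 0 < ε → ∀ᶠ X : ℕ in atTop,
    (5 / 6 - ε) * (((Finset.range (X + 1)).filter fun D => Fund D ∧ D % 3 = c).card : ℝ) ≤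
      (((Finset.range (X + 1)).filter fun D => Fund D ∧ D % 3 = c ∧ Green (kD D)).card : ℝ)

/-- a fundamental discriminant is not a proper square multiple of a discriminant -/
theorem Fund.min {D : ℕ} (h : Fund D) {p : ℕ} (hp : p.Prime) (u v : ℤ) :
    (D : ℤ) ≠ p ^ 2 * (u ^ 2 - 4 * v) := by
  intro e
  have sq : ∀ m : ℕ, Squarefree m → ∀ t : ℤ, (m : ℤ) ≠ p ^ 2 * t := fun m hm t e =>
    hp.one_lt.ne' (Nat.isUnit_iff.1 (hm p (Int.natCast_dvd_natCast.1 ⟨t, by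
      rw [e]; push_cast; ring⟩)))
  rcases h.2 with ⟨-, h2⟩ | ⟨m, rfl, h1, h2⟩
  · exact sq D h2 _ e
  · by_cases h2p : p = 2
    · subst h2p
      have e1 : (m : ℤ) = u ^ 2 - 4 * v := by push_cast at e; linarith
      have h4 : u ^ 2 % 4 = 0 ∨ u ^ 2 % 4 = 1 := by
        rcases Int.even_or_odd' u with ⟨t, rfl | rfl⟩
        · exact Or.inl (by rw [show (2 * t) ^ 2 = 4 * t ^ 2 by ring]; omega)
        · exact Or.inr (by rw [show (2 * t + 1) ^ 2 = 4 * (t ^ 2 + t) + 1 by ring]; omega)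
      omega
    · have hc : IsCoprime ((p : ℤ) ^ 2) 4 := by
        have : Nat.Coprime (p ^ 2) (2 ^ 2) :=
          Nat.Coprime.pow _ _ ((Nat.coprime_primes hp Nat.prime_two).2 h2p)
        exact_mod_cast Nat.isCoprime_iff_coprime.2 this
      obtain ⟨t, ht⟩ : (p : ℤ) ^ 2 ∣ m :=
        hc.dvd_of_dvd_mul_left ⟨_, by rw [← e]; push_cast; rfl⟩
      exact sq m h2 t ht

end Pool.Agent.MP_1246c0_nt.H55
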