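import Pool.Agent.MP_1246c0_nt.H55.Arith

/-! The cyclotomic tower inside the complex numbers. -/

namespace Pool.Agent.MP_1246c0_nt.H55

open NumberField Pool.Agent.MP_db5b97_nt.H85 Polynomial IntermediateField

theorem int_theta {n : ℕ} (hn : 0 < n) {ζ : ℂ} (h : IsPrimitiveRoot ζ n) : IsIntegral ℤ (ζ + ζ⁻¹) :=
  (h.isIntegral hn).add (h.inv.isIntegral hn)

theorem nf_sup (k : IntermediateField ℚ ℂ) [NumberField k] {t : ℂ} (ht : IsIntegral ℤ t) :
    NumberField ↥(k ⊔ adjoin ℚ {t}) :=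
  have := adjoin.finiteDimensional (ht.tower_top (A := ℚ))
  NumberField.mk

theorem tower (k : IntermediateField ℚ ℂ) [NumberField k] [IsTotallyReal k]
    (h : Module.finrank ℚ k = 2) (hk : Good k) (j : ℕ) : ∀ ζ : ℂ, IsPrimitiveRoot ζ (3 ^ (j + 1)) →
    ∀ F : IntermediateField ℚ ℂ, F = k ⊔ adjoin ℚ {ζ + ζ⁻¹} → ∀ [NumberField F] [Algebra k F],
    (∀ x : k, ((algebraMap k F x : F) : ℂ) = x) →
    ∃ θ : 𝓞 F, ((θ : F) : ℂ) = ζ + ζ⁻¹ ∧ Lev k F j θ ∧ Ar k F j := by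
  induction j with
  | zero =>
    intro ζ hζ F hF _ inst hx
    have h0 : ζ ≠ 0 := hζ.ne_zero (by norm_num)
    have e : ζ + ζ⁻¹ = -1 := by
      have := hζ.geom_sum_eq_zero (by norm_num)
      have h3 := hζ.pow_eq_one
      simp only [zero_add, pow_one, Finset.sum_range_succ, Finset.sum_range_zero, pow_zero]
        at this h3
      field_simp
      linear_combination this
    rw [e, sup_eq_left.2 (adjoin_simple_le_iff.2 (neg_mem (one_mem k)))] at hF
    subst hF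
    obtain rfl : inst = Algebra.id F := Algebra.algebra_ext _ _ fun x => Subtype.ext (hx x)
    exact ⟨-1, by simp [e], Lev.zero F h, Ar.zero hk⟩
  | succ j ih =>
    intro ζ hζ F hF _ _ hx
    have h0 : ζ ≠ 0 := hζ.ne_zero (by positivity)
    have hζ3 : IsPrimitiveRoot (ζ ^ 3) (3 ^ (j + 1)) := hζ.pow (by positivity) (pow_succ' _ _)
    have hm : ζ + ζ⁻¹ ∈ F := hF ▸ (le_sup_right (a := k)) (mem_adjoin_simple_self ℚ _)
    have e : (ζ + ζ⁻¹) ^ 3 - 3 * (ζ + ζ⁻¹) = ζ ^ 3 + (ζ ^ 3)⁻¹ := by field_simp; ring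
    set K : IntermediateField ℚ ℂ := k ⊔ adjoin ℚ {ζ ^ 3 + (ζ ^ 3)⁻¹} with hK
    have hKF : K ≤ F := sup_le (hF ▸ le_sup_left) (adjoin_simple_le_iff.2
      (e ▸ sub_mem (pow_mem hm 3) (mul_mem (ofNat_mem F 3) hm)))
    have : NumberField K := nf_sup k (int_theta (by positivity) hζ3)
    let _ : Algebra k K := (inclusion le_sup_left).toAlgebra
    let _ : Algebra K F := (inclusion hKF).toAlgebra
    have : IsScalarTower k K F := IsScalarTower.of_algebraMap_eq fun x => Subtype.ext (hx x)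
    have : IsScalarTower K F ℂ := IsScalarTower.of_algebraMap_eq fun _ => rfl
    obtain ⟨θK, hθK, l, a⟩ := ih _ hζ3 K rfl fun _ => rfl
    have hi := int_theta (by positivity) hζ
    let θ : 𝓞 F := ⟨⟨_, hm⟩, (isIntegral_algebraMap_iff (algebraMap F ℂ).injective).1 hi⟩
    have hθ : θ ^ 3 - 3 * θ = algebraMap (𝓞 K) (𝓞 F) θK :=
      RingOfIntegers.ext (Subtype.ext (e.trans hθK.symm))
    have hle : ∀ t : ℂ, ζ + ζ⁻¹ ∈ adjoin K {t} → ∀ x : F, (x : ℂ) ∈ adjoin K {t} := fun t ht x =>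
      (show F ≤ (adjoin K {t}).restrictScalars ℚ from hF ▸ sup_le
        (fun y hy => (adjoin K {t}).algebraMap_mem ⟨y, (le_sup_left (a := k)) hy⟩)
        (adjoin_simple_le_iff.2 ht)) x.2
    have hg : ∀ x : F, ∃ P : K[X], x = aeval (θ : F) P := fun x => by
      have h1 : (x : ℂ) ∈ (adjoin K {ζ + ζ⁻¹}).toSubalgebra :=
        hle _ (mem_adjoin_simple_self K _) x
      rw [adjoin_simple_toSubalgebra_of_isAlgebraic (hi.tower_top (A := K)).isAlgebraic,
        Algebra.adjoin_singleton_eq_range_aeval] at h1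
      obtain ⟨P, hP⟩ := h1
      exact ⟨P, (algebraMap F ℂ).injective (hP.symm.trans (aeval_algebraMap_apply ℂ (θ : F) P))⟩
    have hz : IsIntegral K ζ := (hζ.isIntegral (by positivity)).tower_top
    have hc : IsCyclotomicExtension {3 ^ (j + 1 + 1)} K (adjoin K {ζ}) := by
      change IsCyclotomicExtension _ K (adjoin K {ζ}).toSubalgebra
      rw [adjoin_simple_toSubalgebra_of_isAlgebraic hz.isAlgebraic]
      exact hζ.adjoin_isCyclotomicExtension K
    have := IsCyclotomicExtension.isAbelianGalois {3 ^ (j + 1 + 1)} K (adjoin K {ζ})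
    have : IsAbelianGalois K F := IsAbelianGalois.of_algHom
      ((IsScalarTower.toAlgHom K F ℂ).codRestrict (adjoin K {ζ}).toSubalgebra
        (hle ζ (add_mem (mem_adjoin_simple_self K ζ) (inv_mem (mem_adjoin_simple_self K ζ)))))
      (M := adjoin K {ζ})
    exact ⟨θ, rfl, (l.step θ hθ hg).1, Ar.step hk l a θ hθ hg⟩

theorem rowTOWER : RowTOWER := by
  intro k _ _ h hk
  obtain ⟨B, hB⟩ := bound k h hk
  refine ⟨B, fun n hn ζ hζ K h1 h2 h3 => ?_⟩
  have h0 : ζ ≠ 0 := hζ.ne_zero (by positivity)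
  have hi := int_theta (by positivity) hζ
  have := nf_sup k hi
  let _ : Algebra k ↥(k ⊔ adjoin ℚ {ζ + ζ⁻¹}) := (inclusion le_sup_left).toAlgebra
  have : IsScalarTower ℚ k ↥(k ⊔ adjoin ℚ {ζ + ζ⁻¹}) := IsScalarTower.of_algebraMap_eq fun _ => rfl
  obtain ⟨θ, -, l, a⟩ := tower k h hk n ζ hζ _ rfl fun _ => rfl
  have hz : IsIntegral ℚ ζ := (hζ.isIntegral (by positivity)).tower_top
  have hc : IsCyclotomicExtension {3 ^ (n + 1)} ℚ (adjoin ℚ {ζ}) := by
    change IsCyclotomicExtension _ ℚ (adjoin ℚ {ζ}).toSubalgebra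
    rw [adjoin_simple_toSubalgebra_of_isAlgebraic hz.isAlgebraic]
    exact hζ.adjoin_isCyclotomicExtension ℚ
  have := adjoin.finiteDimensional hz
  have hr : Module.finrank ℚ (adjoin ℚ {ζ}) = 3 ^ n * 2 := by
    rw [IsCyclotomicExtension.Rat.finrank (3 ^ (n + 1)), Nat.totient_prime_pow_succ Nat.prime_three]
  let Re : IntermediateField ℚ ℂ := (Complex.ofRealAm.restrictScalars ℚ).fieldRange
  have hRe : ∀ x : ℂ, x ∈ Re ↔ x.im = 0 := fun x =>
    ⟨fun ⟨y, hy⟩ => hy ▸ Complex.ofReal_im y, fun hx => ⟨x.re, Complex.ext rfl hx.symm⟩⟩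
  have hn1 : ‖ζ‖ = 1 := hζ.norm'_eq_one (by positivity)
  have hM : K ⊔ adjoin ℚ {ζ + ζ⁻¹} ≤ adjoin ℚ {ζ} := sup_le h1 (adjoin_simple_le_iff.2
    (add_mem (mem_adjoin_simple_self ℚ ζ) (inv_mem (mem_adjoin_simple_self ℚ ζ))))
  have hM2 : K ⊔ adjoin ℚ {ζ + ζ⁻¹} ≤ Re := sup_le (fun x hx => (hRe x).2 (h3 x hx))
    (adjoin_simple_le_iff.2 ((hRe _).2 (by rw [Complex.inv_eq_conj hn1]; simp)))
  have hne : K ⊔ adjoin ℚ {ζ + ζ⁻¹} ≠ adjoin ℚ {ζ} := fun e => by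
    have h4 := (hRe ζ).1 (hM2 (e ▸ mem_adjoin_simple_self ℚ ζ))
    have h5 : ζ ^ 2 = 1 := by
      rw [sq, mul_eq_one_iff_eq_inv₀ h0, Complex.inv_eq_conj hn1]
      exact (Complex.conj_eq_iff_im.2 h4).symm
    have h6 := (dvd_pow_self 3 n.succ_ne_zero).trans ((hζ.pow_eq_one_iff_dvd 2).1 h5)
    omega
  have : FiniteDimensional ℚ ↥(K ⊔ adjoin ℚ {ζ + ζ⁻¹}) :=
    FiniteDimensional.of_injective (inclusion hM).toLinearMap (inclusion hM).injective
  have hKM : K = K ⊔ adjoin ℚ {ζ + ζ⁻¹} := by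
    refine eq_of_le_of_finrank_le le_sup_left ?_
    obtain ⟨t, ht⟩ := finrank_dvd_of_le_right (le_sup_left : K ≤ K ⊔ adjoin ℚ {ζ + ζ⁻¹})
    have h4 := finrank_dvd_of_le_right hM
    rw [ht, hr, h2] at h4
    rcases Nat.prime_two.eq_one_or_self_of_dvd _
      (Nat.dvd_of_mul_dvd_mul_left (by positivity) h4) with rfl | rfl
    · rw [ht, mul_one]
    · exact absurd (eq_of_le_of_finrank_eq hM (by rw [ht, hr, h2])) hne
  have : FiniteDimensional ℚ K := Module.finite_of_finrank_pos (by rw [h2]; positivity)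
  have e : k ⊔ adjoin ℚ {ζ + ζ⁻¹} = k ⊔ K := by
    refine eq_of_le_of_finrank_le (sup_le_sup_left (hKM ▸ le_sup_right) _) ?_
    rw [← Module.finrank_mul_finrank ℚ k ↥(k ⊔ adjoin ℚ {ζ + ζ⁻¹}), l.rank, ← h2]
    exact finrank_sup_le k K
  have key : ∀ F : IntermediateField ℚ ℂ, k ⊔ adjoin ℚ {ζ + ζ⁻¹} = F →
      padicValNat 3 (Nat.card (ClassGroup (𝓞 F))) ≤ B := by
    rintro _ rfl
    exact hB _ n θ l a
  exact key _ e

end Pool.Agent.MP_1246c0_nt.H55
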